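import Mathlib
import Pool.Agent.H691R3.PlaceK

/-!
# Exceptional set in the abc conjecture over number fields: definitions and statements

Target: for every number field `K` of degree `d`, the number of points `(a : b : c)` with
`a + b + c = 0`, `abc ≠ 0`, `H ≤ B` and `rad ≤ h + c₀` is `O(B ^ (20 d / 37 + δ))`.
-/

set_option autoImplicit false

namespace Pool.Agent.W223.AK

open NumberField IsDedekindDomain Finset Pool.Agent.H691R3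

section Basic

variable (K : Type) [Field K] [NumberField K]

/-- the primes of `K` -/
abbrev Pr := HeightOneSpectrum (𝓞 K)

/-- an integral ideal of `K`, given by its exponents -/
abbrev Idl := HeightOneSpectrum (𝓞 K) →₀ ℕ

end Basic

variable {K : Type} [Field K] [NumberField K]

/-- logarithm of the norm of an ideal -/
noncomputable def len (a : Idl K) : ℝ := ∑ v ∈ a.support, (a v : ℝ) * Real.log (Nv v)

/-- logarithm of the norm of the radical of an ideal -/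
noncomputable def rl (a : Idl K) : ℝ := ∑ v ∈ a.support, Real.log (Nv v)

/-- the ideal is prime to `S` -/
def OffS (S : Finset (Pr K)) (a : Idl K) : Prop := ∀ v ∈ S, a v = 0

/-- coprime ideals -/
def Cop (a b : Idl K) : Prop := ∀ v, a v = 0 ∨ b v = 0

open Classical in
/-- the part of `a` made of the primes whose exponent lies in `F` -/
noncomputable def ex (a : Idl K) (F : Set ℕ) : Idl K := a.filter fun v => a v ∈ F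

/-- the special places: the infinite ones and those of `S` -/
noncomputable def Spl (S : Finset (Pr K)) : Finset (Pl K) :=
  (Finset.univ : Finset (InfinitePlace K)).disjSum S

/-- elements `ϖ v`, `v ∉ S`, whose ideal is `v` up to primes of `S`, with small conjugates -/
structure Unif (S : Finset (Pr K)) (ϖ : Pr K → K) (C : ℝ) : Prop where
  one_le : 1 ≤ C
  ne : ∀ v, ϖ v ≠ 0
  self : ∀ v, v ∉ S → fv v (ϖ v) = (Nv v)⁻¹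
  other : ∀ v, v ∉ S → ∀ u, u ∉ S → u ≠ v → fv u (ϖ v) = 1
  spec : ∀ v, v ∉ S → ∀ u ∈ Spl S, |mt u * Real.log (av u (ϖ v))| ≤ C * Real.log (Nv v)

/-- the element attached to an ideal -/
noncomputable def gen (ϖ : Pr K → K) (a : Idl K) : K := ∏ v ∈ a.support, ϖ v ^ a v

/-- `y` is close to `1`: congruent to `1` modulo `f`, and at distance `≤ exp (A - σ v)` from `1`
at the places `v ∈ V` -/
def Cl (f : Idl K) (V : Finset (Pl K)) (σ : Pl K → ℝ) (A : ℝ) (y : K) : Prop :=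
  (∀ v, f v ≠ 0 → fv v (y - 1) ≤ (Nv v) ^ (-(f v : ℤ))) ∧
  (∀ v ∈ V, (av v (y - 1)) ^ (mt v) ≤ Real.exp (A - σ v))

/-- the logarithm of the total modulus -/
noncomputable def lenM (f : Idl K) (V : Finset (Pl K)) (σ : Pl K → ℝ) : ℝ :=
  len f + ∑ v ∈ V, σ v

/-- all integers `1 ≤ i ≤ n` are units outside `S` -/
def SGood (S : Finset (Pr K)) (n : ℕ) : Prop :=
  ∀ i : ℕ, 1 ≤ i → i ≤ n → ∀ v, v ∉ S → fv v (i : K) = 1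

/-- the three linear forms, with `L 0 + L 1 = L 2` -/
def L (l : Fin 3) (x : K) : K := ![x, 1, x + 1] l

/-- `x` is different from `0` and `-1` -/
def Pt (x : K) : Prop := x ≠ 0 ∧ x + 1 ≠ 0

/-- local height of `x` with respect to the form `l` -/
noncomputable def lm (v : Pl K) (l : Fin 3) (x : K) : ℝ :=
  mt v * Real.log (max (av v x) 1 / av v (L l x))

/-- the (unnormalised) height -/
noncomputable def ht (x : K) : ℝ := hr (aff x)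

/-- `P l` is the ideal of the form `l` at `x`, outside `S` -/
structure IsP (S : Finset (Pr K)) (x : K) (P : Fin 3 → Idl K) : Prop where
  off : ∀ l, OffS S (P l)
  val : ∀ l v, v ∉ S → fv v (L l x) = max (fv v x) 1 * (Nv v) ^ (-(P l v : ℤ))

/-! ### Counting ideals and units -/

/-- CNT: ideals with given size of the radical -/
def StmtCNT (K : Type) [Field K] [NumberField K] : Prop :=
  ∀ ε : ℝ, 0 < ε → ∃ D : ℝ, 0 < D ∧ ∀ (X c : ℝ) (E : Finset (Idl K)), 0 ≤ X →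
    (∀ a ∈ E, rl a ≤ c ∧ len a ≤ X) → (E.card : ℝ) ≤ D * Real.exp (c + ε * X)

/-- FAC: ordered factorisations -/
def StmtFAC (K : Type) [Field K] [NumberField K] : Prop :=
  ∀ (h : ℕ) (ε : ℝ), 0 < ε → ∃ D : ℝ, 0 < D ∧ ∀ (a : Idl K) (E : Finset (Fin h → Idl K)),
    (∀ x ∈ E, ∑ j, x j = a) → (E.card : ℝ) ≤ D * Real.exp (ε * len a)

/-- GCD: sum of the reciprocals of the norms -/
def StmtGCD (K : Type) [Field K] [NumberField K] : Prop :=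
  ∀ ε : ℝ, 0 < ε → ∃ D : ℝ, 0 < D ∧ ∀ (X : ℝ) (E : Finset (Idl K)), 0 ≤ X →
    (∀ a ∈ E, len a ≤ X) → ∑ a ∈ E, Real.exp (-len a) ≤ D * Real.exp (ε * X)

/-- OMG: powers of a constant -/
def StmtOMG (K : Type) [Field K] [NumberField K] : Prop :=
  ∀ C ε : ℝ, 1 ≤ C → 0 < ε → ∃ D : ℝ, 0 < D ∧ ∀ a : Idl K,
    C ^ a.support.card ≤ D * Real.exp (ε * len a)

/-- UNI: good sets `S` exist -/
def StmtUNI (K : Type) [Field K] [NumberField K] : Prop :=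
  ∀ S₁ : Finset (Pr K), ∃ S : Finset (Pr K), S₁ ⊆ S ∧ ∃ (ϖ : Pr K → K) (C : ℝ), Unif S ϖ C

/-- SU: `S`-units of bounded height -/
def StmtSU (K : Type) [Field K] [NumberField K] : Prop :=
  ∀ (S : Finset (Pr K)) (ε : ℝ), 0 < ε → ∃ D : ℝ, 0 < D ∧ ∀ (X : ℝ) (E : Finset K), 0 ≤ X →
    (∀ y ∈ E, y ≠ 0 ∧ (∀ v, v ∉ S → fv v y = 1) ∧
      (∀ v ∈ Spl S, |mt v * Real.log (av v y)| ≤ X)) → (E.card : ℝ) ≤ D * Real.exp (ε * X)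

/-! ### The energy bounds -/

/-- P1: pairs of coprime ideals whose quotient has its `l`-th power in a given small set -/
def StmtP1 (S : Finset (Pr K)) (ϖ : Pr K → K) : Prop :=
  ∀ l : ℕ, 1 ≤ l → SGood S l → ∀ ε A : ℝ, 0 < ε → 0 ≤ A → ∃ D : ℝ, 0 < D ∧
    ∀ (X b : ℝ) (f : Idl K) (V : Finset (Pl K)) (σ : Pl K → ℝ) (y₀ : K)
      (Q : Finset (Idl K × Idl K)),
    0 ≤ b → b ≤ X → OffS S f → len f ≤ X → V ⊆ Spl S → (∀ v ∈ V, 0 ≤ σ v) → y₀ ≠ 0 →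
    (∀ t ∈ Q, OffS S t.1 ∧ OffS S t.2 ∧ Cop t.1 f ∧ Cop t.2 f ∧ Cop t.1 t.2 ∧
      len t.1 ≤ b ∧ len t.2 ≤ b ∧ Cl f V σ A (y₀ * (gen ϖ t.1 / gen ϖ t.2) ^ l)) →
    (Q.card : ℝ) ≤ D * Real.exp (ε * X) * (1 + Real.exp (2 * b - lenM f V σ))

/-- TW: two-variable energy -/
def StmtTW (S : Finset (Pr K)) (ϖ : Pr K → K) : Prop :=
  ∀ k l : ℕ, 1 ≤ k → 1 ≤ l → SGood S k → SGood S l → ∀ ε A : ℝ, 0 < ε → 0 ≤ A →
    ∃ D : ℝ, 0 < D ∧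
    ∀ (X a b : ℝ) (f : Idl K) (V : Finset (Pl K)) (σ : Pl K → ℝ) (y₀ : K)
      (Q : Finset ((Idl K × Idl K) × (Idl K × Idl K))),
    0 ≤ a → a ≤ X → 0 ≤ b → b ≤ X → OffS S f → len f ≤ X → V ⊆ Spl S → (∀ v ∈ V, 0 ≤ σ v) →
    y₀ ≠ 0 →
    (∀ t ∈ Q, (OffS S t.1.1 ∧ Cop t.1.1 f ∧ len t.1.1 ≤ a) ∧
      (OffS S t.1.2 ∧ Cop t.1.2 f ∧ len t.1.2 ≤ a) ∧
      (OffS S t.2.1 ∧ Cop t.2.1 f ∧ len t.2.1 ≤ b) ∧
      (OffS S t.2.2 ∧ Cop t.2.2 f ∧ len t.2.2 ≤ b) ∧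
      Cl f V σ A (y₀ * (gen ϖ t.1.1 / gen ϖ t.1.2) ^ k * (gen ϖ t.2.1 / gen ϖ t.2.2) ^ l)) →
    (Q.card : ℝ) ≤ D * Real.exp (ε * X) * (Real.exp (a + b) *
      (1 + Real.exp (a + b - lenM f V σ)))

/-- ABSJ: multiplicative energy of a product set in a finite abelian group, from the moments -/
def StmtABSJ : Prop :=
  ∀ (n : ℕ) (ε : ℝ), 0 < ε → ∃ H : ℕ, ∀ (G : Type) [AddCommGroup G] [Finite G] (ι : Type)
    (X R Λ : ℝ) (A : Fin n → Finset ι) (g : Fin n → ι → G) (ν : Fin n → ℝ),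
    0 ≤ X → 1 ≤ R → (∀ i, 0 ≤ ν i) → ∑ i, ν i ≤ X →
    (∀ i, ((A i).card : ℝ) ≤ R * Real.exp (ν i)) →
    (∀ (i j : Fin n) (h : ℕ), h ≤ H → ν i + h * ν j ≤ 2 * X →
      ∀ Q : Finset ((ι × ι) × ((Fin h → ι) × (Fin h → ι))),
      (∀ t ∈ Q, t.1.1 ∈ A i ∧ t.1.2 ∈ A i ∧ (∀ m, t.2.1 m ∈ A j) ∧ (∀ m, t.2.2 m ∈ A j) ∧
        g i t.1.1 + ∑ m, g j (t.2.1 m) = g i t.1.2 + ∑ m, g j (t.2.2 m)) →
      (Q.card : ℝ) ≤ R * Real.exp (ν i + h * ν j) * (1 + Real.exp (ν i + h * ν j - Λ))) →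
    ∀ (c : G) (Q : Finset ((Fin n → ι) × (Fin n → ι))),
      (∀ t ∈ Q, (∀ i, t.1 i ∈ A i ∧ t.2 i ∈ A i) ∧
        ∑ i, g i (t.1 i) = c + ∑ i, g i (t.2 i)) →
      (Q.card : ℝ) ≤ R ^ (2 * n + 1) * Real.exp (ε * X + ∑ i, ν i) *
        (1 + Real.exp (3 / 2 * ∑ i, ν i - Λ))

/-- GRP: a finite quotient of `Kˣ` recording residues and orders at the primes dividing `f` -/
def StmtGRP (K : Type) [Field K] [NumberField K] : Prop :=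
  ∀ (f : Idl K) (N : ℕ), 1 ≤ N → ∃ (G : Type) (_ : CommGroup G) (_ : Finite G) (θ : Kˣ →* G),
    (∀ y : Kˣ, (∀ v, f v ≠ 0 → fv v ((y : K) - 1) ≤ (Nv v) ^ (-(f v : ℤ))) → θ y = 1) ∧
    (∀ y : Kˣ, θ y = 1 → ∀ v, f v ≠ 0 → |Real.log (fv v (y : K))| < N * Real.log (Nv v) →
      fv v (y : K) = 1 ∧ fv v ((y : K) - 1) ≤ (Nv v) ^ (-(f v : ℤ)))

/-- rounded logarithm of the absolute value -/
noncomputable def ra (M : ℕ) (z : ℂ) : ℤ := ⌊(M : ℝ) * Real.log ‖z‖⌋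

/-- rounded argument -/
noncomputable def rb (M : ℕ) (z : ℂ) : ZMod M := ((⌊(M : ℝ) * (z.arg / (2 * Real.pi))⌋ : ℤ) : ZMod M)

/-- RND: rounding of complex numbers is almost additive and controls the quotient -/
def StmtRND : Prop :=
  ∀ (h : ℕ) (A : ℝ), 0 ≤ A → ∃ C : ℕ, ∀ M : ℕ, 1 ≤ M → ∀ (z z' : Fin h → ℂ),
    (∀ i, z i ≠ 0) → (∀ i, z' i ≠ 0) →
    (∑ i, ra M (z i) = ∑ i, ra M (z' i) → ∑ i, rb M (z i) = ∑ i, rb M (z' i) →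
      ‖(∏ i, z i) / (∏ i, z' i) - 1‖ ≤ C / M) ∧
    (∀ y : ℂ, y ≠ 0 → 2 * A ≤ M → ‖y * ((∏ i, z i) / (∏ i, z' i)) - 1‖ ≤ A / M →
      ∃ a b : ℤ, |a| ≤ C ∧ |b| ≤ C ∧
        ra M y + ∑ i, ra M (z i) = ∑ i, ra M (z' i) + a ∧
        rb M y + ∑ i, rb M (z i) = ∑ i, rb M (z' i) + (b : ZMod M))

/-- JK: the energy of a product set over a number field -/
def StmtJK (S : Finset (Pr K)) (ϖ : Pr K → K) : Prop :=
  ∀ n : ℕ, SGood S n → ∀ ε A : ℝ, 0 < ε → 0 ≤ A → ∃ D : ℝ, 0 < D ∧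
    ∀ (X : ℝ) (f : Idl K) (V : Finset (Pl K)) (σ : Pl K → ℝ) (ν : Fin n → ℝ) (y₀ : K)
      (Q : Finset ((Fin n → Idl K) × (Fin n → Idl K))),
    0 ≤ X → OffS S f → len f ≤ X → V ⊆ Spl S → (∀ v ∈ V, 0 ≤ σ v) → (∀ i, 0 ≤ ν i) →
    ∑ i, ν i ≤ X → y₀ ≠ 0 →
    (∀ t ∈ Q, (∀ i, OffS S (t.1 i) ∧ Cop (t.1 i) f ∧ len (t.1 i) ≤ ν i) ∧
      (∀ i, OffS S (t.2 i) ∧ Cop (t.2 i) f ∧ len (t.2 i) ≤ ν i) ∧
      Cl f V σ A (y₀ * ∏ i, (gen ϖ (t.1 i) / gen ϖ (t.2 i)) ^ ((i : ℕ) + 1))) →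
    (Q.card : ℝ) ≤ D * Real.exp (ε * X + ∑ i, ν i) *
      (1 + Real.exp (3 / 2 * ∑ i, ν i - lenM f V σ))

/-- CS: combinatorial Cauchy-Schwarz inequality -/
def StmtCS : Prop :=
  ∀ (α β : Type) (R : Finset (α × β)) (SA : Finset (α × α)) (SB : Finset (β × β)),
    (∀ p ∈ R, ∀ p' ∈ R, p.2 = p'.2 → (p.1, p'.1) ∈ SA) →
    (∀ p ∈ R, ∀ p' ∈ R, p.1 = p'.1 → (p.2, p'.2) ∈ SB) →
    (R.card : ℝ) ^ 2 ≤ SA.card * SB.card

/-! ### The three bounds for a cell -/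

/-- EST: the energy bound -/
def StmtEST (S : Finset (Pr K)) : Prop :=
  ∀ n : ℕ, SGood S n → ∀ ε : ℝ, 0 < ε → ∃ D : ℝ, 0 < D ∧
    ∀ (X : ℝ) (E : Finset K) (P : K → Fin 3 → Idl K) (p q r : Fin 3) (F : Set ℕ)
      (ν : Fin 3 → Fin n → ℝ) (τ : Fin 3 → ℝ) (c Λ : ℝ) (σ : Pl K → ℝ),
    0 ≤ X → (∀ x ∈ E, Pt x ∧ IsP S x (P x) ∧ ht x ≤ X) → p ≠ q → q ≠ r → p ≠ r →
    (∀ j i, 0 ≤ ν j i) → (∀ j, ∑ i, ν j i ≤ X) →
    (∀ x ∈ E, ∀ j, ∀ i : Fin n, rl (ex (P x j) {(i : ℕ) + 1}) ≤ ν j i) →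
    (∀ x ∈ E, ∀ j, rl (ex (P x j) {m | n < m}) ≤ τ j) →
    (∀ x ∈ E, rl (ex (P x r) F) ≤ c) →
    (∀ x ∈ E, ∀ v ∈ Spl S, |lm v r x - σ v| ≤ 1) →
    (∀ x ∈ E, Λ ≤ len (ex (P x r) F) + ∑ v ∈ Spl S, σ v) →
    (E.card : ℝ) ≤ D * Real.exp (ε * X + c +
      1 / 2 * (2 * τ p + ∑ i, ν p i + max 0 (3 / 2 * ∑ i, ν p i - Λ)) +
      1 / 2 * (2 * τ q + ∑ i, ν q i + max 0 (3 / 2 * ∑ i, ν q i - Λ)))

/-- DB: the difference bound -/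
def StmtDB (S : Finset (Pr K)) : Prop :=
  ∀ (e : ℕ) (ε : ℝ), 2 ≤ e → 0 < ε → ∃ D : ℝ, 0 < D ∧
    ∀ (X : ℝ) (E : Finset K) (P : K → Fin 3 → Idl K) (p q r : Fin 3) (c₁ c₂ c₃ : ℝ),
    0 ≤ X → (∀ x ∈ E, Pt x ∧ IsP S x (P x) ∧ ht x ≤ X) → p ≠ q → q ≠ r → p ≠ r →
    (∀ x ∈ E, rl (ex (P x p) {m | m ≠ e}) ≤ c₁) →
    (∀ x ∈ E, rl (P x q) ≤ c₂) → (∀ x ∈ E, rl (P x r) ≤ c₃) →
    (E.card : ℝ) ≤ D * Real.exp (ε * X) *
      (Real.exp (c₁ + c₂) + Real.exp ((c₁ + c₂) / 2 + c₃))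

/-- MB: the gap principle with root extraction -/
def StmtMB (S : Finset (Pr K)) : Prop :=
  ∀ (k : ℕ) (ε : ℝ), 1 ≤ k → SGood S k → 0 < ε → ∃ D : ℝ, 0 < D ∧
    ∀ (X : ℝ) (E : Finset K) (P : K → Fin 3 → Idl K) (p q r : Fin 3) (I : Fin 3 → Set ℕ)
      (c g : Fin 3 → ℝ),
    0 ≤ X → (∀ x ∈ E, Pt x ∧ IsP S x (P x) ∧ ht x ≤ X) → p ≠ q → q ≠ r → p ≠ r →
    (∀ m, 1 ≤ m → m ∉ I p → k ∣ m) → (∀ m, 1 ≤ m → m ∉ I q → k ∣ m) →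
    (∀ x ∈ E, ∀ l, rl (ex (P x l) (I l)) ≤ c l) →
    (∀ x ∈ E, ∀ l, g l ≤ len (ex (P x l) (I l)) + ∑ v ∈ Spl S, lm v l x) →
    (E.card : ℝ) ≤ D * Real.exp (ε * X + (c p + c q + c r) +
      max 0 (2 * X / k - (g p + g q) / k - g r))

/-! ### The numerical certificate -/

/-- total weight of the classes in `I` -/
noncomputable def WW (v : Fin 3 → Fin 5 → ℝ) (w : Fin 3 → ℝ) (l : Fin 3) (I : Finset (Fin 5)) : ℝ :=
  ∑ i ∈ I, if (i : ℕ) < 4 then ((i : ℕ) + 1 : ℝ) * v l i else w l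

/-- total cost of the classes in `I` -/
noncomputable def VV (v : Fin 3 → Fin 5 → ℝ) (l : Fin 3) (I : Finset (Fin 5)) : ℝ := ∑ i ∈ I, v l i

/-- CERT: one of the three bounds is always good -/
def StmtCERT (e : ℝ) : Prop :=
  ∃ C : ℝ, 0 ≤ C ∧ ∀ (X η : ℝ) (v : Fin 3 → Fin 5 → ℝ) (w s : Fin 3 → ℝ),
    0 ≤ X → 0 ≤ η → (∀ l i, 0 ≤ v l i) → (∀ l, 5 * v l 4 ≤ w l) → (∀ l, -η ≤ s l) →
    (∀ l, |WW v w l univ + s l - X| ≤ η) →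
    (VV v 0 univ + VV v 1 univ + VV v 2 univ ≤ X + η) →
    (∃ (p q r : Fin 3) (k : ℕ) (I : Fin 3 → Finset (Fin 5)), p ≠ q ∧ q ≠ r ∧ p ≠ r ∧ 1 ≤ k ∧
      k ≤ 4 ∧ (∀ i, i ∉ I p → k = 1 ∨ ((i : ℕ) < 4 ∧ k ∣ (i : ℕ) + 1)) ∧
      (∀ i, i ∉ I q → k = 1 ∨ ((i : ℕ) < 4 ∧ k ∣ (i : ℕ) + 1)) ∧
      VV v p (I p) + VV v q (I q) + VV v r (I r) +
        max 0 (2 * X / k - ((WW v w p (I p) + s p) + (WW v w q (I q) + s q)) / k -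
          (WW v w r (I r) + s r)) ≤ e * X + C * η) ∨
    (∃ (p q r : Fin 3) (F : Finset (Fin 5)), p ≠ q ∧ q ≠ r ∧ p ≠ r ∧
      VV v r F + 1 / 2 * (VV v p univ + max 0 (3 / 2 * VV v p univ - (WW v w r F + s r))) +
        1 / 2 * (VV v q univ + max 0 (3 / 2 * VV v q univ - (WW v w r F + s r))) ≤
        e * X + C * η) ∨
    (∃ (p q r : Fin 3) (i : Fin 5), p ≠ q ∧ q ≠ r ∧ p ≠ r ∧ 1 ≤ (i : ℕ) ∧ (i : ℕ) < 4 ∧
      VV v p {i}ᶜ + VV v q univ ≤ e * X + C * η ∧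
      (VV v p {i}ᶜ + VV v q univ) / 2 + VV v r univ ≤ e * X + C * η)

/-! ### Final count -/

/-- FIN: the final count (unnormalised heights) -/
def StmtFIN (K : Type) [Field K] [NumberField K] (e : ℝ) : Prop :=
  ∀ (T : Finset (Pr K)) (c₀ δ : ℝ), 0 < δ → ∃ D : ℝ, 0 < D ∧ ∀ (X : ℝ) (E : Finset K), 0 ≤ X →
    (∀ x ∈ E, Pt x ∧ ht x ≤ X ∧ ∃ P : Fin 3 → Idl K, IsP T x P ∧
      rl (P 0) + rl (P 1) + rl (P 2) ≤ ht x + c₀) →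
    (E.card : ℝ) ≤ D * Real.exp ((e + δ) * X)

end Pool.Agent.W223.AK
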