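import Mathlib
import Pool.Agent.W223.AK.Basic

/-!
# Basic facts on points
-/

set_option autoImplicit false
set_option linter.unusedSectionVars false

namespace Pool.Agent.W223.AK

open NumberField IsDedekindDomain Finset Pool.Agent.H691R3

variable {K : Type} [Field K] [NumberField K]

@[simp] theorem L_zero (x : K) : L 0 x = x := rfl

@[simp] theorem L_one (x : K) : L 1 x = 1 := rfl

@[simp] theorem L_two (x : K) : L 2 x = x + 1 := rfl

theorem L_ne {x : K} (hx : Pt x) (l : Fin 3) : L l x ≠ 0 := by
  fin_cases l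
  · exact hx.1
  · exact one_ne_zero
  · exact hx.2

theorem fv_L_le (v : Pr K) (l : Fin 3) (x : K) : fv v (L l x) ≤ max (fv v x) 1 := by
  fin_cases l
  · exact le_max_left _ _
  · show fv v 1 ≤ _
    rw [map_one]
    exact le_max_right _ _
  · have := fv_na v x 1
    rw [map_one] at this
    exact this

theorem av_L_le (v : Pl K) (l : Fin 3) (x : K) : av v (L l x) ≤ 2 * max (av v x) 1 := by
  have h1 : 0 < max (av v x) 1 := lt_max_of_lt_right one_pos
  fin_cases l
  · show av v x ≤ _
    have := le_max_left (av v x) 1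
    linarith
  · show av v 1 ≤ _
    rw [map_one]
    have := le_max_right (av v x) 1
    linarith
  · show av v (x + 1) ≤ _
    have h2 := (av v).add_le x 1
    rw [map_one] at h2
    have h3 := le_max_left (av v x) 1
    have h4 := le_max_right (av v x) 1
    linarith

theorem mx_pos (v : Pl K) (x : K) : 0 < max (av v x) 1 := lt_max_of_lt_right one_pos

theorem max_zpow (v : Pr K) {x : K} (hx : x ≠ 0) : ∃ n : ℤ, max (fv v x) 1 = (Nv v) ^ n := by
  rcases max_choice (fv v x) 1 with h | h
  · rw [h]; exact fv_zpow v hx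
  · rw [h]; exact ⟨0, by simp⟩

/-- existence of the ideals of a point -/
theorem exists_isP (S : Finset (Pr K)) {x : K} (hx : Pt x) : ∃ P : Fin 3 → Idl K, IsP S x P := by
  classical
  have hex : ∀ (l : Fin 3) (v : Pr K), ∃ n : ℕ,
      fv v (L l x) = max (fv v x) 1 * (Nv v) ^ (-(n : ℤ)) := by
    intro l v
    obtain ⟨a, ha⟩ := max_zpow v hx.1
    obtain ⟨b, hb⟩ := fv_zpow v (L_ne hx l)
    have h1 := fv_L_le v l x
    rw [ha, hb, zpow_le_zpow_iff_right₀ (Nv_one_lt v)] at h1
    refine ⟨(a - b).toNat, ?_⟩
    rw [ha, hb, Int.toNat_of_nonneg (by omega), ← zpow_add₀ (Nv_pos v).ne']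
    congr 1
    ring
  choose n hn using hex
  have hfin : ∀ l, (Function.support fun v : Pr K => if v ∈ S then 0 else n l v).Finite := by
    intro l
    refine ((fv_support_finite hx.1).union ((fv_support_finite hx.2))).subset ?_
    intro v hv
    by_contra hcon
    simp only [Set.mem_union, Set.mem_ofPred_eq, not_or, not_not] at hcon
    apply hv
    show (if v ∈ S then 0 else n l v) = 0
    split_ifs
    · rfl
    · have h1 := hn l v
      have h2 : fv v (L l x) = 1 := by
        fin_cases l
        · exact hcon.1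
        · exact map_one _
        · exact hcon.2
      rw [h2, hcon.1, max_self, one_mul, zpow_neg] at h1
      by_contra h3
      have h4 : (1 : ℝ) < (Nv v) ^ ((n l v : ℕ) : ℤ) := by
        rw [zpow_natCast]
        exact one_lt_pow₀ (Nv_one_lt v) h3
      have h5 : ((Nv v) ^ ((n l v : ℕ) : ℤ))⁻¹ < 1 := inv_lt_one_of_one_lt₀ h4
      rw [← h1] at h5
      exact lt_irrefl _ h5
  refine ⟨fun l => Finsupp.ofSupportFinite _ (hfin l), ⟨?_, ?_⟩⟩
  · intro l v hv
    show (if v ∈ S then 0 else n l v) = 0
    rw [if_pos hv]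
  · intro l v hv
    have : (Finsupp.ofSupportFinite _ (hfin l)) v = n l v := by
      show (if v ∈ S then 0 else n l v) = _
      rw [if_neg hv]
    rw [this]
    exact hn l v

theorem fv_lt_of_ne {S : Finset (Pr K)} {x : K} {P : Fin 3 → Idl K} (hP : IsP S x P) {l : Fin 3}
    {v : Pr K} (h : P l v ≠ 0) : fv v (L l x) < max (fv v x) 1 := by
  have hv : v ∉ S := fun hv => h (hP.off l v hv)
  rw [hP.val l v hv]
  have h1 : 0 < max (fv v x) 1 := lt_max_of_lt_right one_pos
  have h2 : (Nv v) ^ (-(P l v : ℤ)) < 1 := by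
    rw [zpow_neg, zpow_natCast]
    exact inv_lt_one_of_one_lt₀ (one_lt_pow₀ (Nv_one_lt v) h)
  nlinarith

/-- the three ideals are pairwise coprime -/
theorem IsP.cop {S : Finset (Pr K)} {x : K} {P : Fin 3 → Idl K} (hP : IsP S x P) {l l' : Fin 3}
    (hl : l ≠ l') : Cop (P l) (P l') := by
  intro v
  by_contra hcon
  push Not at hcon
  obtain ⟨h1, h2⟩ := hcon
  have key : ∀ a b : Fin 3, a ≠ b → fv v (L a x) < max (fv v x) 1 →
      fv v (L b x) < max (fv v x) 1 → False := by
    intro a b hab ha hb
    have f01 : fv v (L 0 x) < max (fv v x) 1 → fv v (L 1 x) < max (fv v x) 1 → False := by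
      intro h3 h4
      rw [L_zero] at h3
      rw [L_one, map_one] at h4
      rcases max_choice (fv v x) 1 with h | h
      · rw [h] at h3; exact lt_irrefl _ h3
      · rw [h] at h4; exact lt_irrefl _ h4
    have f02 : fv v (L 0 x) < max (fv v x) 1 → fv v (L 2 x) < max (fv v x) 1 → False := by
      intro h3 h4
      refine f01 h3 ?_
      have h5 : L 1 x = L 2 x + -(L 0 x) := by simp
      rw [h5]
      refine (fv_na v _ _).trans_lt (max_lt h4 ?_)
      rw [map_neg_eq_map]
      exact h3
    have f12 : fv v (L 1 x) < max (fv v x) 1 → fv v (L 2 x) < max (fv v x) 1 → False := by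
      intro h3 h4
      refine f01 ?_ h3
      have h5 : L 0 x = L 2 x + -(L 1 x) := by simp
      rw [h5]
      refine (fv_na v _ _).trans_lt (max_lt h4 ?_)
      rw [map_neg_eq_map]
      exact h3
    fin_cases a <;> fin_cases b
    · exact hab rfl
    · exact f01 ha hb
    · exact f02 ha hb
    · exact f01 hb ha
    · exact hab rfl
    · exact f12 ha hb
    · exact f02 hb ha
    · exact f12 hb ha
    · exact hab rfl
  exact key l l' hl (fv_lt_of_ne hP h1) (fv_lt_of_ne hP h2)

theorem lm_eq {x : K} (hx : Pt x) (v : Pl K) (l : Fin 3) :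
    lm v l x = mt v * Real.log (max (av v x) 1) - mt v * Real.log (av v (L l x)) := by
  unfold lm
  rw [Real.log_div (mx_pos v x).ne' ((av v).pos (L_ne hx l)).ne']
  ring

/-- the sum formula for the local heights -/
theorem sum_lm {S : Finset (Pr K)} {x : K} {P : Fin 3 → Idl K} (hx : Pt x) (hP : IsP S x P)
    (l : Fin 3) : len (P l) + ∑ v ∈ Spl S, lm v l x = ht x := by
  classical
  set s : Finset (Pr K) := ((fv_support_finite hx.1).toFinset ∪
    (fv_support_finite hx.2).toFinset) \ S with hs
  have hd : Disjoint S s := Finset.disjoint_sdiff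
  have h1 : ∀ v, v ∉ S → v ∉ s → fv v x = 1 ∧ fv v (x + 1) = 1 := by
    intro v hv hvs
    rw [hs, Finset.mem_sdiff, Finset.mem_union, Set.Finite.mem_toFinset,
      Set.Finite.mem_toFinset] at hvs
    simp only [Set.mem_ofPred_eq] at hvs
    constructor
    · by_contra h; exact hvs ⟨Or.inl h, hv⟩
    · by_contra h; exact hvs ⟨Or.inr h, hv⟩
  have h2 : ∀ v, v ∉ S → v ∉ s → fv v (L l x) = 1 := by
    intro v hv hvs
    fin_cases l
    · exact (h1 v hv hvs).1
    · exact map_one _
    · exact (h1 v hv hvs).2
  have h3 := product_formula S (L_ne hx l) s h2 hd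
  have h4 := ht_eq S x s (fun v hv hvs => (h1 v hv hvs).1.le) hd
  have hsupp : (P l).support ⊆ s := by
    intro v hv
    rw [Finsupp.mem_support_iff] at hv
    by_contra hvs
    have hvS : v ∉ S := fun h => hv (hP.off l v h)
    have h5 := fv_lt_of_ne hP hv
    rw [h2 v hvS hvs, (h1 v hvS hvs).1, max_self] at h5
    exact lt_irrefl _ h5
  have h5 : len (P l) = ∑ v ∈ s, Real.log (max (fv v x) 1) - ∑ v ∈ s, Real.log (fv v (L l x)) := by
    rw [len_eq_sum hsupp, ← Finset.sum_sub_distrib]
    refine Finset.sum_congr rfl fun v hv => ?_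
    have hvS : v ∉ S := by
      rw [hs, Finset.mem_sdiff] at hv
      exact hv.2
    have h6 : (0 : ℝ) < max (fv v x) 1 := lt_max_of_lt_right one_pos
    rw [hP.val l v hvS, Real.log_mul h6.ne' (zpow_pos (Nv_pos v) _).ne', Real.log_zpow]
    push_cast
    ring
  have h6 : ∑ v ∈ Spl S, lm v l x = ∑ v ∈ Spl S, mt v * Real.log (max (av v x) 1) -
      ∑ v ∈ Spl S, mt v * Real.log (av v (L l x)) := by
    rw [← Finset.sum_sub_distrib]
    exact Finset.sum_congr rfl fun v _ => lm_eq hx v l
  rw [h5, h6, h4]
  linarith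

theorem mt_le_two (v : Pl K) : mt v ≤ 2 := by
  rcases v with w | v
  · rw [mt_inl, InfinitePlace.mult]
    split_ifs <;> norm_num
  · rw [mt_inr]; norm_num

theorem one_le_mt (v : Pl K) : 1 ≤ mt v := by
  rcases v with w | v
  · rw [mt_inl, InfinitePlace.mult]
    split_ifs <;> norm_num
  · rw [mt_inr]

/-- a constant depending on `S` -/
noncomputable def cS (S : Finset (Pr K)) : ℝ := ∑ v ∈ Spl S, mt v * Real.log 2

theorem cS_nonneg (S : Finset (Pr K)) : 0 ≤ cS S :=
  Finset.sum_nonneg fun v _ => mul_nonneg (mt_pos v).le (Real.log_nonneg (by norm_num))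

theorem lm_ge {x : K} (hx : Pt x) (v : Pl K) (l : Fin 3) : -(mt v * Real.log 2) ≤ lm v l x := by
  have h1 := mx_pos v x
  have h2 := (av v).pos (L_ne hx l)
  have h3 : Real.log (av v (L l x)) ≤ Real.log 2 + Real.log (max (av v x) 1) := by
    rw [← Real.log_mul (by norm_num) h1.ne']
    exact Real.log_le_log h2 (av_L_le v l x)
  rw [lm_eq hx]
  have := mt_pos v
  nlinarith

theorem ht_nonneg (x : K) : 0 ≤ ht x := hr_aff_nonneg x

theorem lm_le {S : Finset (Pr K)} {x : K} (hx : Pt x) {v : Pl K} (hv : v ∈ Spl S) (l : Fin 3) :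
    lm v l x ≤ ht x + cS S := by
  classical
  obtain ⟨P, hP⟩ := exists_isP S hx
  have h1 := sum_lm hx hP l
  have h2 : lm v l x + mt v * Real.log 2 ≤ ∑ v ∈ Spl S, (lm v l x + mt v * Real.log 2) :=
    Finset.single_le_sum (f := fun v => lm v l x + mt v * Real.log 2) (fun u _ => by
      have := lm_ge hx u l
      linarith) hv
  rw [Finset.sum_add_distrib] at h2
  have h3 := len_nonneg (P l)
  have h4 : 0 ≤ mt v * Real.log 2 := mul_nonneg (mt_pos v).le (Real.log_nonneg (by norm_num))
  unfold cS
  linarith

theorem sum_lm_ge {S : Finset (Pr K)} {x : K} (hx : Pt x) (l : Fin 3) :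
    -(cS S) ≤ ∑ v ∈ Spl S, lm v l x := by
  unfold cS
  rw [← Finset.sum_neg_distrib]
  exact Finset.sum_le_sum fun v _ => lm_ge hx v l

theorem len_le {S : Finset (Pr K)} {x : K} {P : Fin 3 → Idl K} (hx : Pt x) (hP : IsP S x P)
    (l : Fin 3) : len (P l) ≤ ht x + cS S := by
  have h1 := sum_lm hx hP l
  have h2 := sum_lm_ge (S := S) hx l
  linarith

/-! ### the quotients of the forms -/

theorem L_quot_inj {x x' : K} (hx : Pt x) (hx' : Pt x') {p q : Fin 3} (hpq : p ≠ q)
    (h : L p x / L q x = L p x' / L q x') : x = x' := by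
  rw [div_eq_div_iff (L_ne hx q) (L_ne hx' q)] at h
  fin_cases p <;> fin_cases q
  · exact absurd rfl hpq
  · simpa using h
  · simp only [Fin.zero_eta, L_zero, Fin.reduceFinMk, L_two] at h
    linear_combination h
  · simp only [Fin.mk_one, L_one, Fin.zero_eta, L_zero] at h
    linear_combination -h
  · exact absurd rfl hpq
  · simp only [Fin.mk_one, L_one, Fin.reduceFinMk, L_two] at h
    linear_combination -h
  · simp only [Fin.reduceFinMk, L_two, Fin.zero_eta, L_zero] at h
    linear_combination -h
  · simp only [Fin.reduceFinMk, L_two, Fin.mk_one, L_one] at h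
    linear_combination h
  · exact absurd rfl hpq

/-- the coefficients of the linear relation between the forms -/
def sgn (K : Type) [Field K] (l : Fin 3) : K := ![1, 1, -1] l

theorem sgn_sq (l : Fin 3) : sgn K l * sgn K l = 1 := by
  fin_cases l <;> simp [sgn]

theorem sgn_ne (l : Fin 3) : sgn K l ≠ 0 := by
  fin_cases l <;> simp [sgn]

theorem abv_sgn (f : AbsoluteValue K ℝ) (l : Fin 3) : f (sgn K l) = 1 := by
  fin_cases l <;> simp [sgn]

/-- the linear relation -/
theorem L_rel (x : K) {p q r : Fin 3} (hpq : p ≠ q) (hqr : q ≠ r) (hpr : p ≠ r) :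
    sgn K p * L p x + sgn K q * L q x + sgn K r * L r x = 0 := by
  have h : ∑ l : Fin 3, sgn K l * L l x = 0 := by
    rw [Fin.sum_univ_three]
    simp [sgn]
  fin_cases p <;> fin_cases q <;> fin_cases r <;> first
    | exact absurd rfl hpq
    | exact absurd rfl hqr
    | exact absurd rfl hpr
    | (simp [sgn]; done)
    | (simp [sgn]; ring)

/-- plus or minus the quotient `L p / L q` -/
noncomputable def yy (p q : Fin 3) (x : K) : K := -(sgn K p * sgn K q) * (L p x / L q x)

theorem yy_ne {x : K} (hx : Pt x) (p q : Fin 3) : yy p q x ≠ 0 := by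
  unfold yy
  exact mul_ne_zero (neg_ne_zero.mpr (mul_ne_zero (sgn_ne p) (sgn_ne q)))
    (div_ne_zero (L_ne hx p) (L_ne hx q))

theorem yy_sub_one {x : K} (hx : Pt x) {p q r : Fin 3} (hpq : p ≠ q) (hqr : q ≠ r) (hpr : p ≠ r) :
    yy p q x - 1 = sgn K r * sgn K q * (L r x / L q x) := by
  have h1 := L_rel x hpq hqr hpr
  have h2 := L_ne hx q
  have h3 := sgn_sq (K := K) q
  unfold yy
  field_simp
  linear_combination (-(sgn K q)) * h1 + L q x * h3

theorem abv_yy_sub_one (f : AbsoluteValue K ℝ) {x : K} (hx : Pt x) {p q r : Fin 3} (hpq : p ≠ q)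
    (hqr : q ≠ r) (hpr : p ≠ r) : f (yy p q x - 1) = f (L r x) / f (L q x) := by
  rw [yy_sub_one hx hpq hqr hpr, map_mul, map_mul, abv_sgn, abv_sgn, map_div₀, one_mul, one_mul]

/-- the quotient is `1` modulo the ideal of the third form -/
theorem yy_cong {S : Finset (Pr K)} {x : K} {P : Fin 3 → Idl K} (hx : Pt x) (hP : IsP S x P)
    {p q r : Fin 3} (hpq : p ≠ q) (hqr : q ≠ r) (hpr : p ≠ r) {v : Pr K} (hv : P r v ≠ 0) :
    fv v (yy p q x - 1) = (Nv v) ^ (-(P r v : ℤ)) := by
  have hvS : v ∉ S := fun h => hv (hP.off r v h)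
  have hq : P q v = 0 := (hP.cop hqr v).resolve_right hv
  have hm : (0 : ℝ) < max (fv v x) 1 := lt_max_of_lt_right one_pos
  rw [abv_yy_sub_one _ hx hpq hqr hpr, hP.val r v hvS, hP.val q v hvS, hq]
  simp only [Nat.cast_zero, neg_zero, zpow_zero, mul_one]
  field_simp

/-- the quotient is close to `1` at the special places where the third form is small -/
theorem yy_close {x : K} (hx : Pt x) {p q r : Fin 3} (hpq : p ≠ q) (hqr : q ≠ r) (hpr : p ≠ r)
    {v : Pl K} (hv : mt v * Real.log 4 ≤ lm v r x) :
    (av v (yy p q x - 1)) ^ (mt v) ≤ Real.exp (mt v * Real.log 2 - lm v r x) := by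
  have hm := mx_pos v x
  have hmt := mt_pos v
  have hLr := (av v).pos (L_ne hx r)
  have hLq := (av v).pos (L_ne hx q)
  -- the form `r` is small
  have h1 : av v (L r x) ≤ max (av v x) 1 / 4 := by
    unfold lm at hv
    have h2 : Real.log 4 ≤ Real.log (max (av v x) 1 / av v (L r x)) :=
      le_of_mul_le_mul_left hv hmt
    have h3 := (Real.log_le_log_iff (by norm_num) (by positivity)).mp h2
    rw [le_div_iff₀ hLr] at h3
    linarith
  -- the form `q` is not small
  have h2 : max (av v x) 1 / 2 ≤ av v (L q x) := by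
    have hcase : ∀ a b c : Fin 3, a ≠ b → b ≠ c → a ≠ c → av v (L c x) ≤ max (av v x) 1 / 4 →
        max (av v x) 1 / 2 ≤ av v (L b x) := by
      intro a b c hab hbc hac hc
      have g0 : av v (L 0 x) = av v x := rfl
      have g1 : av v (L 1 x) = 1 := by rw [L_one, map_one]
      -- comparison of two forms through the third
      have hcmp : ∀ a b c : Fin 3, a ≠ b → b ≠ c → a ≠ c →
          av v (L a x) ≤ av v (L b x) + av v (L c x) := by
        intro a b c hab hbc hac
        have h3 := L_rel x hab hbc hac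
        have h4 : L a x = -(sgn K a * sgn K b) * L b x + -(sgn K a * sgn K c) * L c x := by
          have h5 := sgn_sq (K := K) a
          linear_combination (sgn K a) * h3 - L a x * h5
        rw [h4]
        refine ((av v).add_le _ _).trans (le_of_eq ?_)
        rw [map_mul, map_mul, map_neg_eq_map, map_neg_eq_map, map_mul, map_mul, abv_sgn, abv_sgn,
          abv_sgn]
        ring
      have hmax : max (av v x) 1 = av v (L 0 x) ∨ max (av v x) 1 = av v (L 1 x) := by
        rcases max_choice (av v x) 1 with h | h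
        · left; rw [h, g0]
        · right; rw [h, g1]
      -- the maximum is attained at `a` or `b`, or `b = 2`
      rcases hmax with h | h
      · by_cases hb : b = 0
        · rw [hb]; linarith
        · by_cases ha : a = 0
          · have := hcmp a b c hab hbc hac
            rw [ha] at this
            linarith
          · exfalso
            have hc0 : c = 0 := by
              fin_cases a <;> fin_cases b <;> fin_cases c <;> first
                | rfl
                | exact absurd rfl ha
                | exact absurd rfl hb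
                | exact absurd rfl hab
                | exact absurd rfl hbc
                | exact absurd rfl hac
            rw [hc0] at hc
            linarith
      · by_cases hb : b = 1
        · rw [hb]; linarith
        · by_cases ha : a = 1
          · have := hcmp a b c hab hbc hac
            rw [ha] at this
            linarith
          · exfalso
            have hc0 : c = 1 := by
              fin_cases a <;> fin_cases b <;> fin_cases c <;> first
                | rfl
                | exact absurd rfl ha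
                | exact absurd rfl hb
                | exact absurd rfl hab
                | exact absurd rfl hbc
                | exact absurd rfl hac
            rw [hc0] at hc
            linarith
    exact hcase p q r hpq hqr hpr h1
  have h3 : av v (yy p q x - 1) ≤ 2 * (av v (L r x) / max (av v x) 1) := by
    rw [abv_yy_sub_one _ hx hpq hqr hpr, div_le_iff₀ hLq, mul_assoc, div_mul_eq_mul_div,
      mul_div_assoc', le_div_iff₀ hm]
    nlinarith
  have h4 : (0 : ℝ) ≤ av v (yy p q x - 1) := (av v).nonneg _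
  refine (Real.rpow_le_rpow h4 h3 hmt.le).trans (le_of_eq ?_)
  have h5 : 0 < av v (L r x) / max (av v x) 1 := by positivity
  rw [Real.rpow_def_of_pos (by positivity), Real.log_mul (by norm_num) h5.ne']
  congr 1
  unfold lm
  rw [Real.log_div hLr.ne' hm.ne', Real.log_div hm.ne' hLr.ne']
  ring

/-- the `S`-unit of a point -/
theorem unit_fv {S : Finset (Pr K)} {ϖ : Pr K → K} {C : ℝ} (hU : Unif S ϖ C) {x : K}
    {P : Fin 3 → Idl K} (hP : IsP S x P) (p q : Fin 3) {v : Pr K} (hv : v ∉ S) :
    fv v (yy p q x * (gen ϖ (P q) / gen ϖ (P p))) = 1 := by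
  unfold yy
  have hm : (0 : ℝ) < max (fv v x) 1 := lt_max_of_lt_right one_pos
  have hN := Nv_pos v
  rw [map_mul, map_mul, map_neg_eq_map, map_mul, abv_sgn, abv_sgn, map_div₀, map_div₀,
    hP.val p v hv, hP.val q v hv, fv_gen hU (hP.off p) hv, fv_gen hU (hP.off q) hv]
  have h1 := (zpow_pos hN (-(P p v : ℤ))).ne'
  have h2 := (zpow_pos hN (-(P q v : ℤ))).ne'
  field_simp

/-- sizes of the `S`-unit of a point -/
theorem unit_spec {S : Finset (Pr K)} {ϖ : Pr K → K} {C : ℝ} (hU : Unif S ϖ C) {x : K}
    {P : Fin 3 → Idl K} (hx : Pt x) (hP : IsP S x P) (p q : Fin 3) {v : Pl K} (hv : v ∈ Spl S) :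
    |mt v * Real.log (av v (yy p q x * (gen ϖ (P q) / gen ϖ (P p))))| ≤
      (2 * C + 2) * (ht x + cS S) := by
  have hLp := (av v).pos (L_ne hx p)
  have hLq := (av v).pos (L_ne hx q)
  have hgp := (av v).pos (gen_ne hU (P p))
  have hgq := (av v).pos (gen_ne hU (P q))
  have e1 : av v (yy p q x * (gen ϖ (P q) / gen ϖ (P p))) =
      (av v (L p x) / av v (L q x)) * (av v (gen ϖ (P q)) / av v (gen ϖ (P p))) := by
    unfold yy
    rw [map_mul, map_mul, map_neg_eq_map, map_mul, abv_sgn, abv_sgn, map_div₀, map_div₀]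
    ring
  rw [e1, Real.log_mul (div_pos hLp hLq).ne' (div_pos hgq hgp).ne', Real.log_div hLp.ne' hLq.ne',
    Real.log_div hgq.ne' hgp.ne']
  have h1 := spec_gen hU (hP.off p) hv
  have h2 := spec_gen hU (hP.off q) hv
  have h3 := len_le hx hP p
  have h4 := len_le hx hP q
  have h5 := lm_eq hx v p
  have h6 := lm_eq hx v q
  have h7 := lm_ge hx v p
  have h8 := lm_ge hx v q
  have h9 := lm_le hx hv p
  have h10 := lm_le hx hv q
  have hC := hU.one_le
  have hc : mt v * Real.log 2 ≤ cS S :=
    Finset.single_le_sum (f := fun v => H691R3.mt v * Real.log 2)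
      (fun u _ => mul_nonneg (mt_pos u).le (Real.log_nonneg (by norm_num))) hv
  have hh := ht_nonneg x
  have hcs := cS_nonneg S
  have g1 : C * len (P p) ≤ C * (ht x + cS S) := mul_le_mul_of_nonneg_left h3 (by linarith)
  have g2 : C * len (P q) ≤ C * (ht x + cS S) := mul_le_mul_of_nonneg_left h4 (by linarith)
  rw [abs_le] at h1 h2
  have e2 : mt v * (Real.log (av v (L p x)) - Real.log (av v (L q x)) +
      (Real.log (av v (gen ϖ (P q))) - Real.log (av v (gen ϖ (P p))))) =
      (lm v q x - lm v p x) + mt v * Real.log (av v (gen ϖ (P q))) -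
        mt v * Real.log (av v (gen ϖ (P p))) := by
    rw [h5, h6]; ring
  rw [e2, abs_le]
  constructor
  · nlinarith [h1.1, h1.2, h2.1, h2.2]
  · nlinarith [h1.1, h1.2, h2.1, h2.2]

/-! ### closeness -/

/-- quotients of elements close to `1` -/
theorem Cl_div {f : Idl K} {V : Finset (Pl K)} {σ : Pl K → ℝ} {A : ℝ} {y y' : K}
    (h : Cl f V σ A y) (h' : Cl f V σ A y')
    (hV : ∀ v ∈ V, A + mt v * Real.log 2 ≤ σ v) : Cl f V σ (A + 3) (y / y') := by
  constructor
  · intro v hv
    have h1 := h.1 v hv
    have h2 := h'.1 v hv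
    have hlt : (Nv v) ^ (-(f v : ℤ)) < 1 := by
      rw [zpow_neg, zpow_natCast]
      exact inv_lt_one_of_one_lt₀ (one_lt_pow₀ (Nv_one_lt v) hv)
    have h3 : fv v y' = 1 := by
      have h4 : fv v (y' - 1) < 1 := h2.trans_lt hlt
      apply le_antisymm
      · have : y' = (y' - 1) + 1 := by ring
        rw [this]
        refine (fv_na v _ _).trans ?_
        rw [map_one]
        exact max_le h4.le le_rfl
      · by_contra hcon
        push Not at hcon
        have h5 := fv_na v y' (-(y' - 1))
        have h6 : y' + -(y' - 1) = 1 := by ring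
        rw [h6, map_one, map_neg_eq_map] at h5
        exact absurd h5 (not_le.mpr (max_lt hcon h4))
    have hy' : y' ≠ 0 := by
      rintro rfl
      rw [map_zero] at h3
      exact zero_ne_one h3
    have h4 : y / y' - 1 = ((y - 1) + -(y' - 1)) / y' := by
      field_simp
      ring
    rw [h4, map_div₀, h3, div_one]
    refine (fv_na v _ _).trans (max_le h1 ?_)
    rw [map_neg_eq_map]
    exact h2
  · intro v hv
    have hmt := mt_pos v
    have h1 := h.2 v hv
    have h2 := h'.2 v hv
    set t : ℝ := Real.exp ((A - σ v) / mt v) with ht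
    have ht0 : 0 < t := Real.exp_pos _
    have htm : t ^ (mt v) = Real.exp (A - σ v) := by
      rw [ht, ← Real.exp_mul, div_mul_cancel₀ _ hmt.ne']
    have h3 : av v (y - 1) ≤ t := by
      rw [← htm] at h1
      exact (Real.rpow_le_rpow_iff ((av v).nonneg _) ht0.le hmt).mp h1
    have h4 : av v (y' - 1) ≤ t := by
      rw [← htm] at h2
      exact (Real.rpow_le_rpow_iff ((av v).nonneg _) ht0.le hmt).mp h2
    have h5 : t ≤ 1 / 2 := by
      rw [ht, one_div, ← Real.exp_log (show (0 : ℝ) < 2⁻¹ by norm_num), Real.exp_le_exp,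
        Real.log_inv, div_le_iff₀ hmt]
      have := hV v hv
      linarith
    have h6 : 1 / 2 ≤ av v y' := by
      have h7 := (av v).add_le y' (-(y' - 1))
      have h8 : y' + -(y' - 1) = 1 := by ring
      rw [h8, map_one, map_neg_eq_map] at h7
      linarith
    have hy' : y' ≠ 0 := by
      rintro rfl
      rw [map_zero] at h6
      norm_num at h6
    have h7 : av v (y / y' - 1) ≤ 4 * t := by
      have h8 : y / y' - 1 = ((y - 1) + -(y' - 1)) / y' := by
        field_simp
        ring
      rw [h8, map_div₀, div_le_iff₀ (by linarith)]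
      have h9 := (av v).add_le (y - 1) (-(y' - 1))
      rw [map_neg_eq_map] at h9
      nlinarith
    calc (av v (y / y' - 1)) ^ (mt v) ≤ (4 * t) ^ (mt v) :=
          Real.rpow_le_rpow ((av v).nonneg _) h7 hmt.le
      _ = 4 ^ (mt v) * Real.exp (A - σ v) := by
          rw [Real.mul_rpow (by norm_num) ht0.le, htm]
      _ ≤ Real.exp 3 * Real.exp (A - σ v) := by
          refine mul_le_mul_of_nonneg_right ?_ (Real.exp_pos _).le
          have h10 : (4 : ℝ) ^ (mt v) ≤ 4 ^ (2 : ℝ) :=
            Real.rpow_le_rpow_of_exponent_le (by norm_num) (mt_le_two v)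
          have h11 : (4 : ℝ) ^ (2 : ℝ) = 16 := by norm_num
          have h12 : (16 : ℝ) ≤ Real.exp 3 := by
            have h13 := Real.exp_one_gt_d9
            have h14 : Real.exp 3 = Real.exp 1 ^ 3 := by
              rw [← Real.exp_nat_mul]; norm_num
            rw [h14]
            have h15 : (2.71 : ℝ) ^ 3 ≤ Real.exp 1 ^ 3 :=
              pow_le_pow_left₀ (by norm_num) (by linarith) 3
            norm_num at h15 ⊢
            linarith
          linarith
      _ = Real.exp (A + 3 - σ v) := by
          rw [← Real.exp_add]; congr 1; ring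

end Pool.Agent.W223.AK
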