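import Mathlib
import Pool.Agent.W52.AK.CNT
import Pool.Agent.W45.AK.UNI
import Pool.Agent.W822.AK.SU
import Pool.Agent.W681.AK.ABSJ
import Pool.Agent.W613.AK.GRP
import Pool.Agent.W214.AK.RND
import Pool.Agent.W375.AK.CS
import Pool.Agent.W108.AK.MB
import Pool.Agent.W249.AK.TW
import Pool.Agent.W54.AK.JK
import Pool.Agent.W358.AK.EST
import Pool.Agent.W108.AK.FIN
import Pool.Agent.W440.AK.P1
import Pool.Agent.W462.AK.DB
import Pool.Agent.W223.AK.Data2037

/-!
# Assembly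
-/

set_option autoImplicit false

namespace Pool.Agent.W223.AK

variable (K : Type) [Field K] [NumberField K]

theorem est_all (S : Finset (Pr K)) (ϖ : Pr K → K) (C : ℝ) (hU : Unif S ϖ C) : StmtEST S :=
  Pool.Agent.W358.AK.est hU
    (W54.AK.jk hU
      (Pool.Agent.W249.AK.tw (Pool.Agent.W440.AK.p1 hU Pool.Agent.W52.AK.omg)
        Pool.Agent.W52.AK.cnt Pool.Agent.W52.AK.gcdsum hU.ne)
      Pool.Agent.W681.AK.absj Pool.Agent.W613.AK.grp Pool.Agent.W214.AK.rnd
      Pool.Agent.W52.AK.cnt Pool.Agent.W52.AK.fac)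
    Pool.Agent.W52.AK.cnt Pool.Agent.W822.AK.su Pool.Agent.W375.AK.cs

theorem db_all (S : Finset (Pr K)) (ϖ : Pr K → K) (C : ℝ) (hU : Unif S ϖ C) : StmtDB S :=
  Pool.Agent.W462.AK.db hU Pool.Agent.W52.AK.cnt Pool.Agent.W52.AK.fac Pool.Agent.W822.AK.su

/-- the count for exponent `20 / 37` -/
theorem main : StmtFIN K (20 / 37) :=
  Pool.Agent.W108.AK.fin (20 / 37) (by norm_num) Pool.Agent.W45.AK.uni (est_all K) (db_all K)
    (fun S => Pool.Agent.W108.AK.mb S) Data2037.cert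

end Pool.Agent.W223.AK
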