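import Mathlib
import Pool.Agent.W223.AK.Defs

/-!
# A checker for the numerical certificate
-/

set_option autoImplicit false
set_option linter.unusedVariables false

namespace Pool.Agent.W223.AK

open Finset

/-- value of a linear form -/
noncomputable def ev : List ℤ → List ℝ → ℝ
  | [], _ => 0
  | _ :: _, [] => 0
  | a :: f, x :: z => a * x + ev f z

/-- sum of two forms -/
def addL : List ℤ → List ℤ → List ℤ
  | [], g => g
  | a :: f, [] => a :: f
  | a :: f, b :: g => (a + b) :: addL f g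

/-- multiple of a form -/
def smL (c : ℤ) : List ℤ → List ℤ
  | [] => []
  | a :: f => (c * a) :: smL c f

theorem ev_nil (z : List ℝ) : ev [] z = 0 := by cases z <;> rfl

theorem ev_add : ∀ (f g : List ℤ) (z : List ℝ), ev (addL f g) z = ev f z + ev g z
  | [], g, z => by rw [addL, ev_nil, zero_add]
  | a :: f, [], z => by rw [addL, ev_nil, add_zero]
  | a :: f, b :: g, [] => by simp [addL, ev]
  | a :: f, b :: g, x :: z => by
    rw [addL, ev, ev, ev, ev_add f g z]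
    push_cast
    ring

theorem ev_sm (c : ℤ) : ∀ (f : List ℤ) (z : List ℝ), ev (smL c f) z = c * ev f z
  | [], z => by rw [smL, ev_nil, mul_zero]
  | a :: f, [] => by simp [smL, ev]
  | a :: f, x :: z => by
    rw [smL, ev, ev, ev_sm c f z]
    push_cast
    ring

/-- all coefficients are nonpositive -/
def npos : List ℤ → Bool
  | [] => true
  | a :: f => (decide (a ≤ 0)) && npos f

theorem ev_npos : ∀ (f : List ℤ) (z : List ℝ), npos f = true → (∀ x ∈ z, 0 ≤ x) → ev f z ≤ 0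
  | [], z, _, _ => by rw [ev_nil]
  | a :: f, [], _, _ => le_rfl
  | a :: f, x :: z, h, hz => by
    rw [npos, Bool.and_eq_true, decide_eq_true_eq] at h
    rw [ev]
    have h1 := ev_npos f z h.2 fun y hy => hz y (List.mem_cons_of_mem _ hy)
    have h2 : (a : ℝ) ≤ 0 := by exact_mod_cast h.1
    have h3 := hz x List.mem_cons_self
    nlinarith

/-- combination of forms; the Boolean marks strict inequalities -/
def cmb : List ℕ → List (List ℤ × Bool) → List ℤ × Bool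
  | [], _ => ([], false)
  | _ :: _, [] => ([], false)
  | n :: ns, h :: hs =>
    match n with
    | 0 => cmb ns hs
    | Nat.succ m =>
      let r := cmb ns hs
      (addL (smL ((m : ℤ) + 1) h.1) r.1, h.2 || r.2)

/-- the form is nonnegative, positive if marked -/
def Sat (z : List ℝ) (h : List ℤ × Bool) : Prop :=
  0 ≤ ev h.1 z ∧ (h.2 = true → 0 < ev h.1 z)

theorem cmb_sat (z : List ℝ) : ∀ (ns : List ℕ) (hs : List (List ℤ × Bool)),
    (∀ h ∈ hs, Sat z h) → Sat z (cmb ns hs)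
  | [], hs, _ => by
    rw [cmb]
    exact ⟨by rw [ev_nil], fun h => absurd h (by simp)⟩
  | _ :: _, [], _ => by
    rw [cmb]
    exact ⟨by rw [ev_nil], fun h => absurd h (by simp)⟩
  | 0 :: ns, h :: hs, H => by
    rw [cmb]
    exact cmb_sat z ns hs fun h' hh' => H h' (List.mem_cons_of_mem _ hh')
  | (Nat.succ m) :: ns, h :: hs, H => by
    rw [cmb]
    have h1 := cmb_sat z ns hs fun h' hh' => H h' (List.mem_cons_of_mem _ hh')
    have h2 := H h List.mem_cons_self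
    have hm : (0 : ℝ) < ((m : ℤ) + 1 : ℤ) := by push_cast; positivity
    refine ⟨?_, ?_⟩
    · show 0 ≤ ev (addL (smL ((m : ℤ) + 1) h.1) (cmb ns hs).1) z
      rw [ev_add, ev_sm]
      exact add_nonneg (mul_nonneg hm.le h2.1) h1.1
    · intro h3
      show 0 < ev (addL (smL ((m : ℤ) + 1) h.1) (cmb ns hs).1) z
      rw [ev_add, ev_sm]
      have h4 : h.2 = true ∨ (cmb ns hs).2 = true := by
        have : (h.2 || (cmb ns hs).2) = true := h3
        rwa [Bool.or_eq_true] at this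
      rcases h4 with h4 | h4
      · exact add_pos_of_pos_of_nonneg (mul_pos hm (h2.2 h4)) h1.1
      · exact add_pos_of_nonneg_of_pos (mul_nonneg hm.le h2.1) (h1.2 h4)

/-- the test at a leaf -/
def leafOK (ns : List ℕ) (hs : List (List ℤ × Bool)) : Bool :=
  let r := cmb ns hs
  r.2 && npos r.1

theorem leaf_false {z : List ℝ} (hz : ∀ x ∈ z, 0 ≤ x) {ns : List ℕ} {hs : List (List ℤ × Bool)}
    (H : ∀ h ∈ hs, Sat z h) (h : leafOK ns hs = true) : False := by
  unfold leafOK at h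
  simp only [Bool.and_eq_true] at h
  have h1 := (cmb_sat z ns hs H).2 h.1
  have h2 := ev_npos _ z h.2 hz
  linarith

/-! ### The forms -/

/-- bit of a mask, as an integer -/
def bt (m i : ℕ) : ℤ := if m.testBit i then 1 else 0

/-- a form from its coefficients: `X`, the `v`, the `w`, the `s`, `η` -/
def frm (x : ℤ) (v0 v1 v2 : ℕ → ℤ) (w0 w1 w2 s0 s1 s2 e : ℤ) : List ℤ :=
  [x, v0 0, v0 1, v0 2, v0 3, v0 4, v1 0, v1 1, v1 2, v1 3, v1 4, v2 0, v2 1, v2 2, v2 3, v2 4,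
    w0, w1, w2, s0, s1, s2, e]

/-- coefficients of `a * VV - b * (WW - last)` on the classes -/
def cf (a b : ℤ) (m i : ℕ) : ℤ := if i < 4 then (a - b * ((i : ℤ) + 1)) * bt m i else a * bt m i

/-- the denominators of the gains -/
def dn (k r l : ℕ) : ℤ := if l = r then 12 else ((12 / k : ℕ) : ℤ)

/-- forms of the bound `M`; the exponent is `en / ed`, the constant `cb` -/
def fM1 (en ed cb : ℕ) (m0 m1 m2 : ℕ) : List ℤ :=
  frm (-(12 * en)) (cf (12 * ed) 0 m0) (cf (12 * ed) 0 m1) (cf (12 * ed) 0 m2) 0 0 0 0 0 0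
    (-(12 * ed * cb))

def fM2 (en ed cb : ℕ) (k r m0 m1 m2 : ℕ) : List ℤ :=
  frm (ed * ((24 / k : ℕ) : ℤ) - 12 * en)
    (cf (12 * ed) (ed * dn k r 0) m0) (cf (12 * ed) (ed * dn k r 1) m1)
    (cf (12 * ed) (ed * dn k r 2) m2)
    (-(ed * dn k r 0 * bt m0 4)) (-(ed * dn k r 1 * bt m1 4)) (-(ed * dn k r 2 * bt m2 4))
    (-(ed * dn k r 0)) (-(ed * dn k r 1)) (-(ed * dn k r 2))
    (ed * dn k r 0 + ed * dn k r 1 + ed * dn k r 2 - 12 * ed * cb)

/-- forms of the bound `S`; `a` and `b` are `0` or `1` (for the two other sides) -/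
def fS (en ed cb : ℕ) (r F : ℕ) (a b : ℤ) : List ℤ :=
  let P : ℕ → ℤ := fun _ => 6 * ed + 9 * ed * a
  let Q : ℕ → ℤ := fun _ => 6 * ed + 9 * ed * b
  let R : ℕ → ℤ := cf (12 * ed) (6 * ed * (a + b)) F
  let W : ℤ := -(6 * ed * (a + b) * bt F 4)
  let Z : ℤ := -(6 * ed * (a + b))
  let E : ℤ := 6 * ed * (a + b) - 12 * ed * cb
  if r = 0 then frm (-(12 * en)) R P Q W 0 0 Z 0 0 E
  else if r = 1 then frm (-(12 * en)) P R Q 0 W 0 0 Z 0 E
  else frm (-(12 * en)) P Q R 0 0 W 0 0 Z E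

/-- forms of the bound `D` -/
def dl (p q i l j : ℕ) : ℤ :=
  if l = p then (if j = i then 0 else 1) else if l = q then 1 else 0

def fD1 (en ed cb : ℕ) (p q i : ℕ) : List ℤ :=
  frm (-(12 * en)) (fun j => 12 * ed * dl p q i 0 j) (fun j => 12 * ed * dl p q i 1 j)
    (fun j => 12 * ed * dl p q i 2 j) 0 0 0 0 0 0 (-(12 * ed * cb))

def fD2 (en ed cb : ℕ) (p q r i : ℕ) : List ℤ :=
  frm (-(12 * en)) (fun j => 6 * ed * dl p q i 0 j + (if 0 = r then 12 * (ed : ℤ) else 0))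
    (fun j => 6 * ed * dl p q i 1 j + (if 1 = r then 12 * (ed : ℤ) else 0))
    (fun j => 6 * ed * dl p q i 2 j + (if 2 = r then 12 * (ed : ℤ) else 0)) 0 0 0 0 0 0
    (-(12 * ed * cb))

/-- case trees -/
inductive CT
  | leaf (ms : List ℕ)
  | nM (k r m0 m1 m2 : ℕ) (t1 t2 : CT)
  | nS (r F : ℕ) (t1 t2 t3 t4 : CT)
  | nD (p q r i : ℕ) (t1 t2 : CT)

/-- the classes that are not in the mask are divisible by `k` -/
def vmask (k m : ℕ) : Bool :=
  (k == 1) || ((m.testBit 4) && (m.testBit 0 || k ∣ 1) && (m.testBit 1 || k ∣ 2) &&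
    (m.testBit 2 || k ∣ 3) && (m.testBit 3 || k ∣ 4))

/-- the checker -/
def chk (en ed cb : ℕ) : CT → List (List ℤ × Bool) → Bool
  | .leaf ms, hs => leafOK ms hs
  | .nM k r m0 m1 m2 t1 t2, hs =>
    (decide (1 ≤ k ∧ k ≤ 4 ∧ r < 3)) && ((r == 0) || vmask k m0) && ((r == 1) || vmask k m1) &&
      ((r == 2) || vmask k m2) &&
      chk en ed cb t1 ((fM1 en ed cb m0 m1 m2, true) :: hs) &&
      chk en ed cb t2 ((fM2 en ed cb k r m0 m1 m2, true) :: hs)
  | .nS r F t1 t2 t3 t4, hs =>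
    (decide (r < 3)) && chk en ed cb t1 ((fS en ed cb r F 0 0, true) :: hs) &&
      chk en ed cb t2 ((fS en ed cb r F 1 0, true) :: hs) &&
      chk en ed cb t3 ((fS en ed cb r F 0 1, true) :: hs) &&
      chk en ed cb t4 ((fS en ed cb r F 1 1, true) :: hs)
  | .nD p q r i t1 t2, hs =>
    (decide (p < 3 ∧ q < 3 ∧ r < 3 ∧ p ≠ q ∧ q ≠ r ∧ p ≠ r ∧ 1 ≤ i ∧ i < 4)) &&
      chk en ed cb t1 ((fD1 en ed cb p q i, true) :: hs) &&
      chk en ed cb t2 ((fD2 en ed cb p q r i, true) :: hs)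

/-- the basic constraints -/
def bas : List (List ℤ × Bool) :=
  [(frm (-1) (fun i => if i < 4 then (i : ℤ) + 1 else 0) 0 0 1 0 0 1 0 0 0, false),
   (frm (-1) 0 (fun i => if i < 4 then (i : ℤ) + 1 else 0) 0 0 1 0 0 1 0 0, false),
   (frm (-1) 0 0 (fun i => if i < 4 then (i : ℤ) + 1 else 0) 0 0 1 0 0 1 0, false),
   (frm 1 (fun i => if i < 4 then -((i : ℤ) + 1) else 0) 0 0 (-1) 0 0 (-1) 0 0 2, false),
   (frm 1 0 (fun i => if i < 4 then -((i : ℤ) + 1) else 0) 0 0 (-1) 0 0 (-1) 0 2, false),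
   (frm 1 0 0 (fun i => if i < 4 then -((i : ℤ) + 1) else 0) 0 0 (-1) 0 0 (-1) 2, false),
   (frm 1 (-1) (-1) (-1) 0 0 0 0 0 0 1, false),
   (frm 0 (-1) 1 0 0 0 0 0 0 0 0, false),
   (frm 0 0 (-1) 1 0 0 0 0 0 0 0, false),
   (frm 0 (fun i => if i = 4 then -5 else 0) 0 0 1 0 0 0 0 0 0, false),
   (frm 0 0 (fun i => if i = 4 then -5 else 0) 0 0 1 0 0 0 0 0, false),
   (frm 0 0 0 (fun i => if i = 4 then -5 else 0) 0 0 1 0 0 0 0, false)]

end Pool.Agent.W223.AK
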