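import Mathlib
import Pool.Agent.W223.AK.Check

/-!
# Soundness of the checker
-/

set_option autoImplicit false
set_option linter.unusedVariables false
set_option linter.unusedSimpArgs false

namespace Pool.Agent.W223.AK

open Finset

/-- the point at which the forms are evaluated -/
noncomputable def zL (X η : ℝ) (v : Fin 3 → Fin 5 → ℝ) (w s : Fin 3 → ℝ) : List ℝ :=
  [X, v 0 0, v 0 1, v 0 2, v 0 3, v 0 4, v 1 0, v 1 1, v 1 2, v 1 3, v 1 4,
    v 2 0, v 2 1, v 2 2, v 2 3, v 2 4, w 0, w 1, w 2, s 0 + η, s 1 + η, s 2 + η, η]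

theorem ev_frm (X η : ℝ) (v : Fin 3 → Fin 5 → ℝ) (w s : Fin 3 → ℝ) (x : ℤ) (v0 v1 v2 : ℕ → ℤ)
    (w0 w1 w2 s0 s1 s2 e : ℤ) :
    ev (frm x v0 v1 v2 w0 w1 w2 s0 s1 s2 e) (zL X η v w s) =
      x * X + (∑ i : Fin 5, (v0 i : ℝ) * v 0 i) + (∑ i : Fin 5, (v1 i : ℝ) * v 1 i) +
        (∑ i : Fin 5, (v2 i : ℝ) * v 2 i) + w0 * w 0 + w1 * w 1 + w2 * w 2 +
        s0 * (s 0 + η) + s1 * (s 1 + η) + s2 * (s 2 + η) + e * η := by
  unfold frm zL
  simp only [ev, Fin.sum_univ_five]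
  have e0 : ((0 : Fin 5) : ℕ) = 0 := rfl
  have e1 : ((1 : Fin 5) : ℕ) = 1 := rfl
  have e2 : ((2 : Fin 5) : ℕ) = 2 := rfl
  have e3 : ((3 : Fin 5) : ℕ) = 3 := rfl
  have e4 : ((4 : Fin 5) : ℕ) = 4 := rfl
  rw [e0, e1, e2, e3, e4]
  ring

/-- the set of a mask -/
def msk (m : ℕ) : Finset (Fin 5) := univ.filter fun i => m.testBit i = true

theorem VV_msk (v : Fin 3 → Fin 5 → ℝ) (l : Fin 3) (m : ℕ) :
    VV v l (msk m) = ∑ i : Fin 5, (bt m i : ℝ) * v l i := by
  unfold VV msk bt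
  rw [Finset.sum_filter]
  refine Finset.sum_congr rfl fun i _ => ?_
  split_ifs <;> simp

theorem WW_msk (v : Fin 3 → Fin 5 → ℝ) (w : Fin 3 → ℝ) (l : Fin 3) (m : ℕ) :
    WW v w l (msk m) = (∑ i : Fin 5, ((if (i : ℕ) < 4 then ((i : ℕ) + 1 : ℝ) else 0) * bt m i) *
      v l i) + bt m 4 * w l := by
  unfold WW msk bt
  rw [Finset.sum_filter]
  have h : (∑ i : Fin 5, ((if (i : ℕ) < 4 then ((i : ℕ) + 1 : ℝ) else 0) *
      ((if m.testBit i = true then (1 : ℤ) else 0 : ℤ) : ℝ)) * v l i) +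
      (((if m.testBit 4 = true then (1 : ℤ) else 0 : ℤ)) : ℝ) * w l =
      ∑ i : Fin 5, ((((if (i : ℕ) < 4 then ((i : ℕ) + 1 : ℝ) else 0) *
      ((if m.testBit i = true then (1 : ℤ) else 0 : ℤ) : ℝ)) * v l i) +
      (if (i : ℕ) < 4 then 0 else
        (((if m.testBit 4 = true then (1 : ℤ) else 0 : ℤ)) : ℝ) * w l)) := by
    rw [Finset.sum_add_distrib]
    congr 1
    rw [Fin.sum_univ_five]
    simp
  rw [h]
  refine Finset.sum_congr rfl fun i _ => ?_
  by_cases hi : (i : ℕ) < 4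
  · rw [if_pos hi, if_pos hi, if_pos hi]
    split_ifs <;> simp
  · have h4 : (i : ℕ) = 4 := by have := i.2; omega
    rw [if_neg hi, if_neg hi, if_neg hi, h4]
    split_ifs <;> simp

theorem cf_eq (a b : ℤ) (m : ℕ) (i : Fin 5) : (cf a b m i : ℝ) =
    a * bt m i - b * ((if (i : ℕ) < 4 then ((i : ℕ) + 1 : ℝ) else 0) * bt m i) := by
  unfold cf
  split_ifs
  · push_cast; ring
  · push_cast; ring

theorem sum_cf (a b : ℤ) (m : ℕ) (v : Fin 3 → Fin 5 → ℝ) (w : Fin 3 → ℝ) (l : Fin 3) :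
    ∑ i : Fin 5, (cf a b m i : ℝ) * v l i =
      a * VV v l (msk m) - b * (WW v w l (msk m) - bt m 4 * w l) := by
  rw [VV_msk, WW_msk, add_sub_cancel_right, Finset.mul_sum, Finset.mul_sum,
    ← Finset.sum_sub_distrib]
  refine Finset.sum_congr rfl fun i _ => ?_
  rw [cf_eq]
  ring

theorem sum_const (a : ℤ) (v : Fin 3 → Fin 5 → ℝ) (l : Fin 3) :
    ∑ i : Fin 5, (a : ℝ) * v l i = a * VV v l univ := by
  unfold VV
  rw [Finset.mul_sum]

section

variable {en ed cb : ℕ} (hed : 1 ≤ ed) (X η : ℝ) (v : Fin 3 → Fin 5 → ℝ) (w s : Fin 3 → ℝ)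

/-- the target -/
noncomputable def tg (en ed cb : ℕ) (X η : ℝ) : ℝ := (en : ℝ) / ed * X + cb * η

include hed in
theorem tg_eq : 12 * (ed : ℝ) * tg en ed cb X η = 12 * en * X + 12 * ed * cb * η := by
  have : (ed : ℝ) ≠ 0 := by exact_mod_cast (by omega : ed ≠ 0)
  unfold tg
  field_simp

include hed in
theorem ev_fM1 (m0 m1 m2 : ℕ) : ev (fM1 en ed cb m0 m1 m2) (zL X η v w s) =
    12 * ed * (VV v 0 (msk m0) + VV v 1 (msk m1) + VV v 2 (msk m2) - tg en ed cb X η) := by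
  have ht := tg_eq (en := en) (cb := cb) hed X η
  unfold fM1
  rw [ev_frm, sum_cf _ _ _ v w 0, sum_cf _ _ _ v w 1, sum_cf _ _ _ v w 2]
  push_cast
  linear_combination ht

theorem dn_eq {k r l : ℕ} (hk1 : 1 ≤ k) (hk4 : k ≤ 4) :
    (dn k r l : ℝ) = 12 / (if l = r then 1 else (k : ℝ)) := by
  unfold dn
  split_ifs
  · norm_num
  · interval_cases k <;> norm_num

include hed in
theorem ev_fM2 {k : ℕ} (hk1 : 1 ≤ k) (hk4 : k ≤ 4) (r m0 m1 m2 : ℕ) :
    ev (fM2 en ed cb k r m0 m1 m2) (zL X η v w s) =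
    12 * ed * (VV v 0 (msk m0) + VV v 1 (msk m1) + VV v 2 (msk m2) + (2 * X / k -
      (WW v w 0 (msk m0) + s 0) / (if 0 = r then 1 else (k : ℝ)) -
      (WW v w 1 (msk m1) + s 1) / (if 1 = r then 1 else (k : ℝ)) -
      (WW v w 2 (msk m2) + s 2) / (if 2 = r then 1 else (k : ℝ))) - tg en ed cb X η) := by
  have ht := tg_eq (en := en) (cb := cb) hed X η
  have hk : (((24 / k : ℕ) : ℤ) : ℝ) = 24 / (k : ℝ) := by
    interval_cases k <;> norm_num
  unfold fM2
  rw [ev_frm, sum_cf _ _ _ v w 0, sum_cf _ _ _ v w 1, sum_cf _ _ _ v w 2]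
  push_cast
  push_cast at hk
  rw [dn_eq hk1 hk4, dn_eq hk1 hk4, dn_eq hk1 hk4, hk]
  linear_combination ht

/-- value of the forms of the bound `S` -/
theorem ev_fS0 (hed : 1 ≤ ed) (F : ℕ) (a b : ℤ) : ev (fS en ed cb 0 F a b) (zL X η v w s) =
    12 * ed * (VV v 0 (msk F) + 1 / 2 * VV v 1 univ + 1 / 2 * VV v 2 univ +
      a * (1 / 2 * (3 / 2 * VV v 1 univ - (WW v w 0 (msk F) + s 0))) +
      b * (1 / 2 * (3 / 2 * VV v 2 univ - (WW v w 0 (msk F) + s 0))) - tg en ed cb X η) := by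
  have ht := tg_eq (en := en) (cb := cb) hed X η
  unfold fS
  simp only [if_true]
  rw [ev_frm, sum_cf _ _ _ v w 0, sum_const, sum_const]
  push_cast
  linear_combination ht

theorem ev_fS1 (hed : 1 ≤ ed) (F : ℕ) (a b : ℤ) : ev (fS en ed cb 1 F a b) (zL X η v w s) =
    12 * ed * (VV v 1 (msk F) + 1 / 2 * VV v 0 univ + 1 / 2 * VV v 2 univ +
      a * (1 / 2 * (3 / 2 * VV v 0 univ - (WW v w 1 (msk F) + s 1))) +
      b * (1 / 2 * (3 / 2 * VV v 2 univ - (WW v w 1 (msk F) + s 1))) - tg en ed cb X η) := by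
  have ht := tg_eq (en := en) (cb := cb) hed X η
  unfold fS
  simp only [one_ne_zero, if_false, if_true]
  rw [ev_frm, sum_cf _ _ _ v w 1, sum_const, sum_const]
  push_cast
  linear_combination ht

theorem ev_fS2 (hed : 1 ≤ ed) (F : ℕ) (a b : ℤ) : ev (fS en ed cb 2 F a b) (zL X η v w s) =
    12 * ed * (VV v 2 (msk F) + 1 / 2 * VV v 0 univ + 1 / 2 * VV v 1 univ +
      a * (1 / 2 * (3 / 2 * VV v 0 univ - (WW v w 2 (msk F) + s 2))) +
      b * (1 / 2 * (3 / 2 * VV v 1 univ - (WW v w 2 (msk F) + s 2))) - tg en ed cb X η) := by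
  have ht := tg_eq (en := en) (cb := cb) hed X η
  unfold fS
  have h20 : ¬ ((2 : ℕ) = 0) := by norm_num
  have h21 : ¬ ((2 : ℕ) = 1) := by norm_num
  simp only [h20, h21, if_false]
  rw [ev_frm, sum_cf _ _ _ v w 2, sum_const, sum_const]
  push_cast
  linear_combination ht

/-- cost of a side in the bound `D` -/
noncomputable def dV (p q : ℕ) (i : Fin 5) (l : Fin 3) : ℝ :=
  if (l : ℕ) = p then VV v l {i}ᶜ else if (l : ℕ) = q then VV v l univ else 0

theorem sum_dl (c : ℤ) (p q : ℕ) (i : Fin 5) (l : Fin 3) :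
    ∑ j : Fin 5, ((c * dl p q i l j : ℤ) : ℝ) * v l j = c * dV v p q i l := by
  unfold dl dV VV
  by_cases h1 : (l : ℕ) = p
  · simp only [if_pos h1]
    rw [Finset.mul_sum]
    have h3 : ({i}ᶜ : Finset (Fin 5)) = univ.filter fun j => j ≠ i := by
      ext j; simp
    rw [h3, Finset.sum_filter]
    refine Finset.sum_congr rfl fun j _ => ?_
    by_cases h2 : j = i
    · subst h2; simp
    · have h4 : ¬ ((j : ℕ) = (i : ℕ)) := fun h => h2 (Fin.ext h)
      rw [if_neg h4, if_pos h2]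
      push_cast; ring
  · simp only [if_neg h1]
    by_cases h2 : (l : ℕ) = q
    · simp only [if_pos h2]
      rw [Finset.mul_sum]
      refine Finset.sum_congr rfl fun j _ => ?_
      push_cast; ring
    · simp [h2]

include hed in
theorem ev_fD1 (p q : ℕ) (i : Fin 5) : ev (fD1 en ed cb p q i) (zL X η v w s) =
    12 * ed * (dV v p q i 0 + dV v p q i 1 + dV v p q i 2 - tg en ed cb X η) := by
  have ht := tg_eq (en := en) (cb := cb) hed X η
  have g0 := sum_dl v (12 * ed) p q i 0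
  have g1 := sum_dl v (12 * ed) p q i 1
  have g2 := sum_dl v (12 * ed) p q i 2
  have e0 : ((0 : Fin 3) : ℕ) = 0 := rfl
  have e1 : ((1 : Fin 3) : ℕ) = 1 := rfl
  have e2 : ((2 : Fin 3) : ℕ) = 2 := rfl
  rw [e0] at g0
  rw [e1] at g1
  rw [e2] at g2
  unfold fD1
  rw [ev_frm, g0, g1, g2]
  push_cast
  linear_combination ht

include hed in
theorem ev_fD2 (p q r : ℕ) (i : Fin 5) : ev (fD2 en ed cb p q r i) (zL X η v w s) =
    12 * ed * ((dV v p q i 0 + dV v p q i 1 + dV v p q i 2) / 2 +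
      ((if 0 = r then VV v 0 univ else 0) + (if 1 = r then VV v 1 univ else 0) +
        (if 2 = r then VV v 2 univ else 0)) - tg en ed cb X η) := by
  have ht := tg_eq (en := en) (cb := cb) hed X η
  have g0 := sum_dl v (6 * ed) p q i 0
  have g1 := sum_dl v (6 * ed) p q i 1
  have g2 := sum_dl v (6 * ed) p q i 2
  have e0 : ((0 : Fin 3) : ℕ) = 0 := rfl
  have e1 : ((1 : Fin 3) : ℕ) = 1 := rfl
  have e2 : ((2 : Fin 3) : ℕ) = 2 := rfl
  rw [e0] at g0
  rw [e1] at g1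
  rw [e2] at g2
  have k0 : ∀ (l : Fin 3) (c : Prop) [Decidable c], ∑ j : Fin 5,
      (((if c then 12 * (ed : ℤ) else 0 : ℤ)) : ℝ) * v l j =
      12 * ed * (if c then VV v l univ else 0) := by
    intro l c _
    split_ifs
    · rw [sum_const]; push_cast; ring
    · simp
  unfold fD2
  rw [ev_frm]
  have hs : ∀ (f g : Fin 5 → ℤ) (l : Fin 3), ∑ j : Fin 5, ((f j + g j : ℤ) : ℝ) * v l j =
      ∑ j : Fin 5, ((f j : ℤ) : ℝ) * v l j + ∑ j : Fin 5, ((g j : ℤ) : ℝ) * v l j := by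
    intro f g l
    rw [← Finset.sum_add_distrib]
    refine Finset.sum_congr rfl fun j _ => ?_
    push_cast; ring
  rw [hs _ _ 0, hs _ _ 1, hs _ _ 2, g0, g1, g2, k0, k0, k0]
  push_cast
  linear_combination ht

end

/-- all the bounds fail -/
structure Fails (t X : ℝ) (v : Fin 3 → Fin 5 → ℝ) (w s : Fin 3 → ℝ) : Prop where
  M : ∀ (p q r : Fin 3) (k : ℕ) (I : Fin 3 → Finset (Fin 5)), p ≠ q → q ≠ r → p ≠ r → 1 ≤ k →
      k ≤ 4 → (∀ i, i ∉ I p → k = 1 ∨ ((i : ℕ) < 4 ∧ k ∣ (i : ℕ) + 1)) →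
      (∀ i, i ∉ I q → k = 1 ∨ ((i : ℕ) < 4 ∧ k ∣ (i : ℕ) + 1)) →
      t < VV v p (I p) + VV v q (I q) + VV v r (I r) +
        max 0 (2 * X / k - ((WW v w p (I p) + s p) + (WW v w q (I q) + s q)) / k -
          (WW v w r (I r) + s r))
  S : ∀ (p q r : Fin 3) (F : Finset (Fin 5)), p ≠ q → q ≠ r → p ≠ r →
      t < VV v r F + 1 / 2 * (VV v p univ + max 0 (3 / 2 * VV v p univ - (WW v w r F + s r))) +
        1 / 2 * (VV v q univ + max 0 (3 / 2 * VV v q univ - (WW v w r F + s r)))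
  D : ∀ (p q r : Fin 3) (i : Fin 5), p ≠ q → q ≠ r → p ≠ r → 1 ≤ (i : ℕ) → (i : ℕ) < 4 →
      t < VV v p {i}ᶜ + VV v q univ ∨ t < (VV v p {i}ᶜ + VV v q univ) / 2 + VV v r univ

theorem vmask_spec {k m : ℕ} (hk : 1 ≤ k) (h : vmask k m = true) (i : Fin 5) (hi : i ∉ msk m) :
    k = 1 ∨ ((i : ℕ) < 4 ∧ k ∣ (i : ℕ) + 1) := by
  unfold vmask at h
  simp only [Bool.or_eq_true, beq_iff_eq, Bool.and_eq_true, decide_eq_true_eq] at h
  rcases h with h | ⟨⟨⟨⟨h4, h0⟩, h1⟩, h2⟩, h3⟩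
  · left; exact h
  · right
    simp only [msk, mem_filter, mem_univ, true_and] at hi
    fin_cases i
    · exact ⟨by norm_num, h0.resolve_left hi⟩
    · exact ⟨by norm_num, h1.resolve_left hi⟩
    · exact ⟨by norm_num, h2.resolve_left hi⟩
    · exact ⟨by norm_num, h3.resolve_left hi⟩
    · exact absurd h4 hi

theorem sat_of_pos {z : List ℝ} {f : List ℤ} (h : 0 < ev f z) : Sat z (f, true) :=
  ⟨h.le, fun _ => h⟩

theorem sat_cons {z : List ℝ} {f : List ℤ × Bool} {hs : List (List ℤ × Bool)} (h : Sat z f)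
    (H : ∀ h ∈ hs, Sat z h) : ∀ h ∈ f :: hs, Sat z h := by
  intro g hg
  rcases List.mem_cons.mp hg with rfl | hg
  · exact h
  · exact H g hg

theorem lt_add_max {t a b : ℝ} (h : t < a + max 0 b) : t < a ∨ t < a + b := by
  rcases le_total b 0 with hb | hb
  · left; rw [max_eq_left hb, add_zero] at h; exact h
  · right; rw [max_eq_right hb] at h; exact h

theorem chk_sound {en ed cb : ℕ} (hed : 1 ≤ ed) (X η : ℝ) (v : Fin 3 → Fin 5 → ℝ)
    (w s : Fin 3 → ℝ) (hz : ∀ x ∈ zL X η v w s, 0 ≤ x)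
    (hF : Fails (tg en ed cb X η) X v w s) : ∀ (t : CT) (hs : List (List ℤ × Bool)),
    chk en ed cb t hs = true → (∀ h ∈ hs, Sat (zL X η v w s) h) → False := by
  have hed0 : (0 : ℝ) < 12 * ed := by
    have : (0 : ℝ) < ed := by exact_mod_cast (by omega : 0 < ed)
    positivity
  have hpos : ∀ {f : List ℤ} {u : ℝ}, ev f (zL X η v w s) = 12 * ed * (u - tg en ed cb X η) →
      tg en ed cb X η < u → Sat (zL X η v w s) (f, true) := by
    intro f u h1 h2
    refine sat_of_pos ?_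
    rw [h1]
    exact mul_pos hed0 (sub_pos.mpr h2)
  intro t
  induction t with
  | leaf ms =>
    intro hs h H
    exact leaf_false hz H h
  | nM k r m0 m1 m2 t1 t2 ih1 ih2 =>
    intro hs h H
    unfold chk at h
    simp only [Bool.and_eq_true, decide_eq_true_eq, Bool.or_eq_true, beq_iff_eq] at h
    obtain ⟨⟨⟨⟨⟨⟨hk1, hk4, hr⟩, v0⟩, v1⟩, v2⟩, c1⟩, c2⟩ := h
    have key : tg en ed cb X η < VV v 0 (msk m0) + VV v 1 (msk m1) + VV v 2 (msk m2) ∨
        tg en ed cb X η < VV v 0 (msk m0) + VV v 1 (msk m1) + VV v 2 (msk m2) + (2 * X / k -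
      (WW v w 0 (msk m0) + s 0) / (if 0 = r then 1 else (k : ℝ)) -
      (WW v w 1 (msk m1) + s 1) / (if 1 = r then 1 else (k : ℝ)) -
      (WW v w 2 (msk m2) + s 2) / (if 2 = r then 1 else (k : ℝ))) := by
      apply lt_add_max
      interval_cases r
      · have h1 := hF.M 1 2 0 k ![msk m0, msk m1, msk m2] (by decide) (by decide) (by decide)
          hk1 hk4 (fun i hi => vmask_spec hk1 (v1.resolve_left (by norm_num)) i hi)
          (fun i hi => vmask_spec hk1 (v2.resolve_left (by norm_num)) i hi)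
        refine h1.trans_le (le_of_eq ?_)
        simp only [Matrix.cons_val_zero, Matrix.cons_val_one, Matrix.cons_val, if_true,
          zero_ne_one, one_ne_zero, if_false]
        norm_num
        ring_nf
      · have h1 := hF.M 0 2 1 k ![msk m0, msk m1, msk m2] (by decide) (by decide) (by decide)
          hk1 hk4 (fun i hi => vmask_spec hk1 (v0.resolve_left (by norm_num)) i hi)
          (fun i hi => vmask_spec hk1 (v2.resolve_left (by norm_num)) i hi)
        refine h1.trans_le (le_of_eq ?_)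
        simp only [Matrix.cons_val_zero, Matrix.cons_val_one, Matrix.cons_val, if_true,
          zero_ne_one, one_ne_zero, if_false]
        norm_num
        ring_nf
      · have h1 := hF.M 0 1 2 k ![msk m0, msk m1, msk m2] (by decide) (by decide) (by decide)
          hk1 hk4 (fun i hi => vmask_spec hk1 (v0.resolve_left (by norm_num)) i hi)
          (fun i hi => vmask_spec hk1 (v1.resolve_left (by norm_num)) i hi)
        refine h1.trans_le (le_of_eq ?_)
        simp only [Matrix.cons_val_zero, Matrix.cons_val_one, Matrix.cons_val, if_true,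
          zero_ne_one, one_ne_zero, if_false]
        norm_num
        ring_nf
    rcases key with h1 | h1
    · exact ih1 _ c1 (sat_cons (hpos (ev_fM1 hed X η v w s m0 m1 m2) h1) H)
    · exact ih2 _ c2 (sat_cons (hpos (ev_fM2 hed X η v w s hk1 hk4 r m0 m1 m2) h1) H)
  | nS r F t1 t2 t3 t4 ih1 ih2 ih3 ih4 =>
    intro hs h H
    unfold chk at h
    simp only [Bool.and_eq_true, decide_eq_true_eq] at h
    obtain ⟨⟨⟨⟨hr, c1⟩, c2⟩, c3⟩, c4⟩ := h
    have main : ∀ (a b : ℝ) (x y z : ℝ), tg en ed cb X η <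
        z + 1 / 2 * (a + max 0 x) + 1 / 2 * (b + max 0 y) →
        (tg en ed cb X η < z + 1 / 2 * a + 1 / 2 * b + (0 : ℤ) * (1 / 2 * x) + (0 : ℤ) * (1 / 2 * y)) ∨
        (tg en ed cb X η < z + 1 / 2 * a + 1 / 2 * b + (1 : ℤ) * (1 / 2 * x) + (0 : ℤ) * (1 / 2 * y)) ∨
        (tg en ed cb X η < z + 1 / 2 * a + 1 / 2 * b + (0 : ℤ) * (1 / 2 * x) + (1 : ℤ) * (1 / 2 * y)) ∨
        (tg en ed cb X η < z + 1 / 2 * a + 1 / 2 * b + (1 : ℤ) * (1 / 2 * x) +
          (1 : ℤ) * (1 / 2 * y)) := by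
      intro a b x y z h
      push_cast
      rcases le_total x 0 with hx | hx <;> rcases le_total y 0 with hy | hy
      · rw [max_eq_left hx, max_eq_left hy] at h
        left; linarith
      · rw [max_eq_left hx, max_eq_right hy] at h
        right; right; left; linarith
      · rw [max_eq_right hx, max_eq_left hy] at h
        right; left; linarith
      · rw [max_eq_right hx, max_eq_right hy] at h
        right; right; right; linarith
    interval_cases r
    · rcases main _ _ _ _ _ (hF.S 1 2 0 (msk F) (by decide) (by decide) (by decide)) with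
        h1 | h1 | h1 | h1
      · exact ih1 _ c1 (sat_cons (hpos (ev_fS0 X η v w s hed F 0 0) h1) H)
      · exact ih2 _ c2 (sat_cons (hpos (ev_fS0 X η v w s hed F 1 0) h1) H)
      · exact ih3 _ c3 (sat_cons (hpos (ev_fS0 X η v w s hed F 0 1) h1) H)
      · exact ih4 _ c4 (sat_cons (hpos (ev_fS0 X η v w s hed F 1 1) h1) H)
    · rcases main _ _ _ _ _ (hF.S 0 2 1 (msk F) (by decide) (by decide) (by decide)) with
        h1 | h1 | h1 | h1
      · exact ih1 _ c1 (sat_cons (hpos (ev_fS1 X η v w s hed F 0 0) h1) H)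
      · exact ih2 _ c2 (sat_cons (hpos (ev_fS1 X η v w s hed F 1 0) h1) H)
      · exact ih3 _ c3 (sat_cons (hpos (ev_fS1 X η v w s hed F 0 1) h1) H)
      · exact ih4 _ c4 (sat_cons (hpos (ev_fS1 X η v w s hed F 1 1) h1) H)
    · rcases main _ _ _ _ _ (hF.S 0 1 2 (msk F) (by decide) (by decide) (by decide)) with
        h1 | h1 | h1 | h1
      · exact ih1 _ c1 (sat_cons (hpos (ev_fS2 X η v w s hed F 0 0) h1) H)
      · exact ih2 _ c2 (sat_cons (hpos (ev_fS2 X η v w s hed F 1 0) h1) H)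
      · exact ih3 _ c3 (sat_cons (hpos (ev_fS2 X η v w s hed F 0 1) h1) H)
      · exact ih4 _ c4 (sat_cons (hpos (ev_fS2 X η v w s hed F 1 1) h1) H)
  | nD p q r i t1 t2 ih1 ih2 =>
    intro hs h H
    unfold chk at h
    simp only [Bool.and_eq_true, decide_eq_true_eq] at h
    obtain ⟨⟨⟨hp, hq, hr, hpq, hqr, hpr, hi1, hi4⟩, c1⟩, c2⟩ := h
    set i' : Fin 5 := ⟨i, by omega⟩ with hi'
    have h1 := hF.D ⟨p, hp⟩ ⟨q, hq⟩ ⟨r, hr⟩ i' (fun h => hpq (congrArg Fin.val h))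
      (fun h => hqr (congrArg Fin.val h)) (fun h => hpr (congrArg Fin.val h)) hi1 hi4
    have e1 : VV v ⟨p, hp⟩ {i'}ᶜ + VV v ⟨q, hq⟩ univ =
        dV v p q i' 0 + dV v p q i' 1 + dV v p q i' 2 := by
      unfold dV
      interval_cases p <;> interval_cases q <;> simp_all <;> ring
    have e2 : VV v ⟨r, hr⟩ univ =
        ((if 0 = r then VV v 0 univ else 0) + (if 1 = r then VV v 1 univ else 0) +
        (if 2 = r then VV v 2 univ else 0)) := by
      interval_cases r <;> simp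
    rw [e1, e2] at h1
    rcases h1 with h1 | h1
    · exact ih1 _ c1 (sat_cons (hpos (ev_fD1 hed X η v w s p q i') h1) H)
    · exact ih2 _ c2 (sat_cons (hpos (ev_fD2 hed X η v w s p q r i') h1) H)

end Pool.Agent.W223.AK
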