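import Mathlib
import Pool.Agent.W223.AK.Sound

/-!
# The certificate statement from the checker
-/

set_option autoImplicit false
set_option linter.unusedVariables false

namespace Pool.Agent.W223.AK

open Finset

theorem fails_perm {t X : ℝ} {v : Fin 3 → Fin 5 → ℝ} {w s : Fin 3 → ℝ} (hF : Fails t X v w s)
    (π : Equiv.Perm (Fin 3)) :
    Fails t X (fun l => v (π l)) (fun l => w (π l)) (fun l => s (π l)) := by
  have hinj : ∀ {a b : Fin 3}, a ≠ b → π a ≠ π b := fun h h' => h (π.injective h')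
  refine ⟨?_, ?_, ?_⟩
  · intro p q r k I hpq hqr hpr hk1 hk4 hp hq
    have h := hF.M (π p) (π q) (π r) k (fun l => I (π.symm l)) (hinj hpq) (hinj hqr) (hinj hpr)
      hk1 hk4 (fun i hi => hp i (by simpa using hi)) (fun i hi => hq i (by simpa using hi))
    simp only [Equiv.symm_apply_apply] at h
    exact h
  · intro p q r F hpq hqr hpr
    exact hF.S (π p) (π q) (π r) F (hinj hpq) (hinj hqr) (hinj hpr)
  · intro p q r i hpq hqr hpr hi1 hi4
    exact hF.D (π p) (π q) (π r) i (hinj hpq) (hinj hqr) (hinj hpr) hi1 hi4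

theorem WW_univ (v : Fin 3 → Fin 5 → ℝ) (w : Fin 3 → ℝ) (l : Fin 3) :
    WW v w l univ = v l 0 + 2 * v l 1 + 3 * v l 2 + 4 * v l 3 + w l := by
  unfold WW
  rw [Fin.sum_univ_five]
  norm_num

theorem VV_univ (v : Fin 3 → Fin 5 → ℝ) (l : Fin 3) :
    VV v l univ = v l 0 + v l 1 + v l 2 + v l 3 + v l 4 := by
  unfold VV
  rw [Fin.sum_univ_five]

theorem bas_sat {X η : ℝ} {v : Fin 3 → Fin 5 → ℝ} {w s : Fin 3 → ℝ}
    (h5 : ∀ l, 5 * v l 4 ≤ w l) (hW : ∀ l, |WW v w l univ + s l - X| ≤ η)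
    (hV : VV v 0 univ + VV v 1 univ + VV v 2 univ ≤ X + η)
    (h01 : VV v 0 univ ≤ VV v 1 univ) (h12 : VV v 1 univ ≤ VV v 2 univ) :
    ∀ h ∈ bas, Sat (zL X η v w s) h := by
  have hW0 := abs_le.mp (hW 0)
  have hW1 := abs_le.mp (hW 1)
  have hW2 := abs_le.mp (hW 2)
  have h50 := h5 0
  have h51 := h5 1
  have h52 := h5 2
  rw [WW_univ] at hW0 hW1 hW2
  rw [VV_univ, VV_univ] at h01 h12
  rw [VV_univ, VV_univ, VV_univ] at hV
  intro h hh
  unfold bas at hh
  simp only [List.mem_cons, List.not_mem_nil, or_false] at hh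
  rcases hh with rfl | rfl | rfl | rfl | rfl | rfl | rfl | rfl | rfl | rfl | rfl | rfl <;>
    refine ⟨?_, fun h => absurd h (by simp)⟩ <;>
    rw [ev_frm] <;>
    simp [Fin.sum_univ_five] <;>
    linarith [hW0.1, hW0.2, hW1.1, hW1.2, hW2.1, hW2.2]

theorem cert_of_chk {en ed cb : ℕ} (hed : 1 ≤ ed) (t : CT) (ht : chk en ed cb t bas = true) :
    StmtCERT ((en : ℝ) / ed) := by
  refine ⟨cb, Nat.cast_nonneg _, ?_⟩
  intro X η v w s hX hη hv h5 hs hW hV
  by_contra hcon
  push Not at hcon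
  obtain ⟨hM, hS, hD⟩ := hcon
  have hF : Fails (tg en ed cb X η) X v w s := by
    refine ⟨?_, ?_, ?_⟩
    · intro p q r k I hpq hqr hpr hk1 hk4 hp hq
      exact hM p q r k I hpq hqr hpr hk1 hk4 hp hq
    · intro p q r F hpq hqr hpr
      exact hS p q r F hpq hqr hpr
    · intro p q r i hpq hqr hpr hi1 hi4
      by_cases h : VV v p {i}ᶜ + VV v q univ ≤ (en : ℝ) / ed * X + cb * η
      · right
        exact hD p q r i hpq hqr hpr hi1 hi4 h
      · left
        exact not_le.mp h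
  set π := Tuple.sort fun l => VV v l univ with hπ
  have hmono := Tuple.monotone_sort fun l => VV v l univ
  have h01 : VV v (π 0) univ ≤ VV v (π 1) univ := hmono (by decide : (0 : Fin 3) ≤ 1)
  have h12 : VV v (π 1) univ ≤ VV v (π 2) univ := hmono (by decide : (1 : Fin 3) ≤ 2)
  have hsum : VV v (π 0) univ + VV v (π 1) univ + VV v (π 2) univ ≤ X + η := by
    have h1 : ∑ l : Fin 3, VV v (π l) univ = ∑ l : Fin 3, VV v l univ :=
      Equiv.sum_comp π fun l => VV v l univ
    rw [Fin.sum_univ_three, Fin.sum_univ_three] at h1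
    rw [h1]
    exact hV
  refine chk_sound hed X η (fun l => v (π l)) (fun l => w (π l)) (fun l => s (π l)) ?_
    (fails_perm hF π) t bas ht (bas_sat (fun l => h5 (π l)) (fun l => hW (π l)) hsum h01 h12)
  have hw0 : ∀ l, 0 ≤ w l := fun l => by
    have h1 := h5 l
    have h2 := hv l 4
    linarith
  have hs0 : ∀ l, 0 ≤ s l + η := fun l => by
    have := hs l
    linarith
  intro x hx
  unfold zL at hx
  simp only [List.mem_cons, List.not_mem_nil, or_false] at hx
  rcases hx with rfl | rfl | rfl | rfl | rfl | rfl | rfl | rfl | rfl | rfl | rfl | rfl | rfl |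
    rfl | rfl | rfl | rfl | rfl | rfl | rfl | rfl | rfl | rfl <;>
    first
      | exact hX
      | exact hη
      | exact hv _ _
      | exact hw0 _
      | exact hs0 _

end Pool.Agent.W223.AK
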